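import Pool.Agent.Work.MP_4c1a42_gt.Defs

set_option autoImplicit false

/-!
# The Reeb vector field
-/

namespace MP4c1a42

open Set

/-- `P / Γ` is compact, `Γ` acts properly discontinuously by diffeomorphisms commuting with the
vertical translations, and contains the vertical translation by one -/
structure Deck (Γ : Type) [Group Γ] [MulAction Γ P] : Prop where
  smooth : ∀ g : Γ, ContDiff ℝ 2 fun p : P => g • p
  vert : ∀ (g : Γ) (p : P) (s : ℝ), g • (p + s • e3) = g • p + s • e3
  unit : ∃ g : Γ, ∀ p : P, g • p = p + e3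
  proper : ∀ K L : Set P, IsCompact K → IsCompact L → {g : Γ | ∃ p ∈ K, g • p ∈ L}.Finite
  cocompact : ∃ K : Set P, IsCompact K ∧ ∀ p : P, ∃ g : Γ, g • p ∈ K

theorem decomp (v : P) : v = v.1.1 • e1 + v.1.2 • e2 + v.2 • e3 := by
  obtain ⟨⟨a, b⟩, c⟩ := v
  simp [e1, e2, e3]

theorem ext_add (α : P → P →L[ℝ] ℝ) (p u v w : P) : ext α p (u + v) w = ext α p u w + ext α p v w := by
  simp only [ext, map_add, ContinuousLinearMap.add_apply]
  ring

theorem ext_smul (α : P → P →L[ℝ] ℝ) (p v w : P) (c : ℝ) : ext α p (c • v) w = c * ext α p v w := by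
  simp only [ext, map_smul, ContinuousLinearMap.smul_apply, smul_eq_mul]
  ring

theorem ext_swap (α : P → P →L[ℝ] ℝ) (p v w : P) : ext α p v w = -ext α p w v := by
  simp only [ext]
  ring

theorem ext_self (α : P → P →L[ℝ] ℝ) (p v : P) : ext α p v v = 0 := by
  simp [ext]

theorem ext_add' (α : P → P →L[ℝ] ℝ) (p u v w : P) : ext α p w (u + v) = ext α p w u + ext α p w v := by
  simp only [ext, map_add, ContinuousLinearMap.add_apply]
  ring

theorem ext_smul' (α : P → P →L[ℝ] ℝ) (p v w : P) (c : ℝ) :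
    ext α p w (c • v) = c * ext α p w v := by
  simp only [ext, map_smul, ContinuousLinearMap.smul_apply, smul_eq_mul]
  ring

section

variable {Γ : Type} [Group Γ] [MulAction Γ P] {α : P → P →L[ℝ] ℝ} {R : P → P}

/-- the kernel of `dα` meets the kernel of `α` only in zero -/
theorem Contact.uniq (h : Contact Γ α) {p v : P} (h0 : α p v = 0)
    (h1 : ∀ w, ext α p v w = 0) : v = 0 := by
  have hV := h.contact p
  obtain ⟨⟨a, b⟩, c⟩ := v
  have hd : (((a, b), c) : P) = a • e1 + b • e2 + c • e3 := decomp _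
  rw [hd] at h0 h1
  have k0 : a * α p e1 + b * α p e2 + c * α p e3 = 0 := by
    simpa only [map_add, map_smul, smul_eq_mul] using h0
  have k1 := h1 e1
  have k2 := h1 e2
  have k3 := h1 e3
  simp only [ext_add, ext_smul, ext_self, mul_zero, zero_add, add_zero] at k1 k2 k3
  rw [ext_swap α p e2 e1, ] at k1
  rw [ext_swap α p e3 e2] at k2
  rw [ext_swap α p e1 e3] at k3
  have ha : a * (α p e1 * ext α p e2 e3 + α p e2 * ext α p e3 e1 + α p e3 * ext α p e1 e2) = 0 := by
    linear_combination ext α p e2 e3 * k0 + α p e3 * k2 - α p e2 * k3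
  have hb : b * (α p e1 * ext α p e2 e3 + α p e2 * ext α p e3 e1 + α p e3 * ext α p e1 e2) = 0 := by
    linear_combination ext α p e3 e1 * k0 - α p e3 * k1 + α p e1 * k3
  have hc : c * (α p e1 * ext α p e2 e3 + α p e2 * ext α p e3 e1 + α p e3 * ext α p e1 e2) = 0 := by
    linear_combination ext α p e1 e2 * k0 + α p e2 * k1 - α p e1 * k2
  have ha' := (mul_eq_zero.mp ha).resolve_right hV
  have hb' := (mul_eq_zero.mp hb).resolve_right hV
  have hc' := (mul_eq_zero.mp hc).resolve_right hV
  rw [ha', hb', hc']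
  rfl

/-- uniqueness of the Reeb vector -/
theorem Contact.reeb_uniq (h : Contact Γ α) {p u v : P} (hu : α p u = 1)
    (hu' : ∀ w, ext α p u w = 0) (hv : α p v = 1) (hv' : ∀ w, ext α p v w = 0) : u = v := by
  have : u - v = 0 := by
    refine h.uniq (p := p) ?_ fun w => ?_
    · rw [map_sub, hu, hv, sub_self]
    · have : u - v = u + (-1 : ℝ) • v := by simp [sub_eq_add_neg]
      rw [this, ext_add, ext_smul, hu', hv']
      simp
  exact sub_eq_zero.mp this

theorem Contact.ext_smooth (h : Contact Γ α) (v w : P) : ContDiff ℝ 1 fun p => ext α p v w := by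
  have h1 : ContDiff ℝ 1 (fderiv ℝ α) := h.smooth.fderiv_right (by norm_num)
  have h2 : ∀ v w : P, ContDiff ℝ 1 fun p => fderiv ℝ α p v w := fun v w =>
    (h1.clm_apply contDiff_const).clm_apply contDiff_const
  exact (h2 v w).sub (h2 w v)

theorem Contact.reeb_smooth (h : Contact Γ α) (hR : Reeb α R) : ContDiff ℝ 1 R := by
  set V : P → ℝ := fun p =>
    α p e1 * ext α p e2 e3 + α p e2 * ext α p e3 e1 + α p e3 * ext α p e1 e2 with hV
  have ha : ∀ v : P, ContDiff ℝ 1 fun p => α p v := fun v =>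
    (h.smooth.of_le (by norm_num)).clm_apply contDiff_const
  have hVs : ContDiff ℝ 1 V :=
    (((ha e1).mul (h.ext_smooth e2 e3)).add ((ha e2).mul (h.ext_smooth e3 e1))).add
      ((ha e3).mul (h.ext_smooth e1 e2))
  have hV0 : ∀ p, V p ≠ 0 := h.contact
  have hRe : R = fun p => (ext α p e2 e3 / V p) • e1 + (ext α p e3 e1 / V p) • e2 +
      (ext α p e1 e2 / V p) • e3 := by
    funext p
    have hVp := hV0 p
    refine h.reeb_uniq (p := p) (hR p).1 (hR p).2 ?_ fun w => ?_
    · simp only [map_add, map_smul, smul_eq_mul]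
      field_simp
      rw [hV]
      ring
    · have : ∀ j : P, j = e1 ∨ j = e2 ∨ j = e3 → ext α p ((ext α p e2 e3 / V p) • e1 +
          (ext α p e3 e1 / V p) • e2 + (ext α p e1 e2 / V p) • e3) j = 0 := by
        rintro j (rfl | rfl | rfl)
        · simp only [ext_add, ext_smul, ext_self]
          rw [ext_swap α p e2 e1]
          ring
        · simp only [ext_add, ext_smul, ext_self]
          rw [ext_swap α p e3 e2]
          ring
        · simp only [ext_add, ext_smul, ext_self]
          rw [ext_swap α p e1 e3]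
          ring
      rw [decomp w, ext_add', ext_add', ext_smul', ext_smul', ext_smul', this e1 (by simp),
        this e2 (by simp), this e3 (by simp)]
      simp
  rw [hRe]
  exact ((((h.ext_smooth e2 e3).div hVs hV0).smul contDiff_const).add
    (((h.ext_smooth e3 e1).div hVs hV0).smul contDiff_const)).add
    (((h.ext_smooth e1 e2).div hVs hV0).smul contDiff_const)

theorem Contact.fderiv_vert (h : Contact Γ α) (p : P) (s : ℝ) :
    fderiv ℝ α (p + s • e3) = fderiv ℝ α p := by
  have h1 : (fun q : P => α (q + s • e3)) = α := funext fun q => h.vert q s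
  have h2 := fderiv_comp_add_right (𝕜 := ℝ) (f := α) (x := p) (s • e3)
  rw [h1] at h2
  exact h2.symm

theorem Contact.fderiv_e3 (h : Contact Γ α) (p : P) : fderiv ℝ α p e3 = 0 := by
  have hd : DifferentiableAt ℝ α p := (h.smooth.differentiable (by norm_num)) p
  have h1 : HasDerivAt (fun s : ℝ => α (p + s • e3)) (fderiv ℝ α p e3) 0 := by
    have h2 : HasDerivAt (fun s : ℝ => p + s • e3) e3 0 := by
      have := ((hasDerivAt_id (0 : ℝ)).smul_const e3).const_add p
      simpa using this
    have h3 : HasFDerivAt α (fderiv ℝ α p) (p + (0 : ℝ) • e3) := by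
      simpa using hd.hasFDerivAt
    exact h3.comp_hasDerivAt (0 : ℝ) h2
  have h4 : (fun s : ℝ => α (p + s • e3)) = fun _ => α p := funext fun s => h.vert p s
  rw [h4] at h1
  exact (h1.unique (hasDerivAt_const (0 : ℝ) (α p)))

theorem Contact.reeb_vert (h : Contact Γ α) (hR : Reeb α R) (p : P) (s : ℝ) :
    R (p + s • e3) = R p := by
  refine h.reeb_uniq (p := p) ?_ ?_ (hR p).1 (hR p).2
  · have := (hR (p + s • e3)).1
    rwa [h.vert] at this
  · intro w
    have := (hR (p + s • e3)).2 w
    simpa only [ext, h.fderiv_vert] using this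

/-- the function `α(∂_z)` -/
def hh (α : P → P →L[ℝ] ℝ) (p : P) : ℝ := α p e3

theorem Contact.hh_vert (h : Contact Γ α) (p : P) (s : ℝ) : hh α (p + s • e3) = hh α p := by
  rw [hh, hh, h.vert]

theorem Contact.hh_smooth (h : Contact Γ α) : ContDiff ℝ 2 (hh α) :=
  h.smooth.clm_apply contDiff_const

theorem Contact.fderiv_hh (h : Contact Γ α) (p v : P) : fderiv ℝ (hh α) p v = ext α p v e3 := by
  have hd : DifferentiableAt ℝ α p := (h.smooth.differentiable (by norm_num)) p
  have h1 : HasFDerivAt (hh α) ((ContinuousLinearMap.apply ℝ ℝ e3).comp (fderiv ℝ α p)) p :=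
    (ContinuousLinearMap.apply ℝ ℝ e3).hasFDerivAt.comp p hd.hasFDerivAt
  rw [h1.fderiv, ext, h.fderiv_e3]
  simp

/-- critical points of `hh α`: the Reeb vector is vertical -/
theorem Contact.crit_iff (h : Contact Γ α) (hR : Reeb α R) (p : P) :
    fderiv ℝ (hh α) p = 0 ↔ e3 = hh α p • R p := by
  constructor
  · intro h0
    have h1 : ∀ w, ext α p e3 w = 0 := by
      intro w
      rw [ext_swap, ← h.fderiv_hh, h0]
      simp
    have : e3 + (-hh α p) • R p = 0 := by
      refine h.uniq (p := p) ?_ fun w => ?_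
      · rw [map_add, map_smul, (hR p).1, hh]
        simp
      · rw [ext_add, ext_smul, h1, (hR p).2]
        simp
    rw [neg_smul, ← sub_eq_add_neg] at this
    exact sub_eq_zero.mp this
  · intro h0
    refine ContinuousLinearMap.ext fun v => ?_
    rw [h.fderiv_hh, ext_swap, h0, ext_smul, (hR p).2]
    simp

/-- `L_R α = 0` -/
theorem Contact.lie (h : Contact Γ α) (hR : Reeb α R) (p v : P) :
    fderiv ℝ α p (R p) v + α p (fderiv ℝ R p v) = 0 := by
  have hd : DifferentiableAt ℝ α p := (h.smooth.differentiable (by norm_num)) p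
  have hRd : DifferentiableAt ℝ R p := ((h.reeb_smooth hR).differentiable (by norm_num)) p
  have h1 : HasFDerivAt (fun q => α q (R q))
      ((α p).comp (fderiv ℝ R p) + (fderiv ℝ α p).flip (R p)) p :=
    hd.hasFDerivAt.clm_apply hRd.hasFDerivAt
  have h2 : (fun q => α q (R q)) = fun _ => (1 : ℝ) := funext fun q => (hR q).1
  rw [h2] at h1
  have h3 := (hasFDerivAt_const (1 : ℝ) p).unique h1
  have h4 := congrArg (fun L : P →L[ℝ] ℝ => L v) h3
  simp at h4
  have h5 := (hR p).2 v
  rw [ext] at h5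
  linarith

/-- `h` is an integral -/
theorem Contact.fderiv_hh_reeb (h : Contact Γ α) (hR : Reeb α R) (p : P) :
    fderiv ℝ (hh α) p (R p) = 0 := by
  rw [h.fderiv_hh, (hR p).2]

theorem Deck.diff (hD : Deck Γ) (g : Γ) (p : P) : DifferentiableAt ℝ (fun q : P => g • q) p :=
  ((hD.smooth g).differentiable (by norm_num)) p

theorem Deck.fderiv_e3 (hD : Deck Γ) (g : Γ) (p : P) : fderiv ℝ (fun q : P => g • q) p e3 = e3 := by
  have h1 : HasDerivAt (fun s : ℝ => g • (p + s • e3)) (fderiv ℝ (fun q : P => g • q) p e3) 0 := by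
    have h2 : HasDerivAt (fun s : ℝ => p + s • e3) e3 0 := by
      have := ((hasDerivAt_id (0 : ℝ)).smul_const e3).const_add p
      simpa using this
    have h3 : HasFDerivAt (fun q : P => g • q) (fderiv ℝ (fun q : P => g • q) p)
        (p + (0 : ℝ) • e3) := by
      simpa using (hD.diff g p).hasFDerivAt
    exact h3.comp_hasDerivAt (0 : ℝ) h2
  have h4 : (fun s : ℝ => g • (p + s • e3)) = fun s : ℝ => g • p + s • e3 :=
    funext fun s => hD.vert g p s
  rw [h4] at h1
  have h5 : HasDerivAt (fun s : ℝ => g • p + s • e3) e3 0 := by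
    have := ((hasDerivAt_id (0 : ℝ)).smul_const e3).const_add (g • p)
    simpa using this
  exact h1.unique h5

theorem Contact.hh_inv (h : Contact Γ α) (hD : Deck Γ) (g : Γ) (p : P) :
    hh α (g • p) = hh α p := by
  have := h.inv g p e3
  rwa [hD.fderiv_e3] at this

/-- `g^* dα = dα` -/
theorem Contact.ext_inv (h : Contact Γ α) (hs : ∀ g : Γ, ContDiff ℝ 2 fun p : P => g • p) (g : Γ)
    (p u v : P) :
    ext α (g • p) (fderiv ℝ (fun q : P => g • q) p u) (fderiv ℝ (fun q : P => g • q) p v) =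
      ext α p u v := by
  set φ : P → P := fun q => g • q with hφ
  have hφs : ContDiff ℝ 2 φ := hs g
  have hφ1 : ContDiff ℝ 1 (fderiv ℝ φ) := hφs.fderiv_right (by norm_num)
  have key : ∀ a b : P, fderiv ℝ α (φ p) (fderiv ℝ φ p a) (fderiv ℝ φ p b) +
      α (φ p) (fderiv ℝ (fderiv ℝ φ) p a b) = fderiv ℝ α p a b := by
    intro a b
    have hd : DifferentiableAt ℝ α (φ p) := (h.smooth.differentiable (by norm_num)) _
    have hd' : DifferentiableAt ℝ α p := (h.smooth.differentiable (by norm_num)) _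
    have hφd : HasFDerivAt φ (fderiv ℝ φ p) p := ((hφs.differentiable (by norm_num)) p).hasFDerivAt
    have hφd1 : HasFDerivAt (fderiv ℝ φ) (fderiv ℝ (fderiv ℝ φ) p) p :=
      ((hφ1.differentiable (by norm_num)) p).hasFDerivAt
    have h1 : HasFDerivAt (fun q => α (φ q)) ((fderiv ℝ α (φ p)).comp (fderiv ℝ φ p)) p :=
      hd.hasFDerivAt.comp p hφd
    have h2 : HasFDerivAt (fun q => fderiv ℝ φ q b)
        ((ContinuousLinearMap.apply ℝ P b).comp (fderiv ℝ (fderiv ℝ φ) p)) p :=
      (ContinuousLinearMap.apply ℝ P b).hasFDerivAt.comp p hφd1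
    have h3 := h1.clm_apply h2
    have h4 : (fun q => (α (φ q)) (fderiv ℝ φ q b)) = fun q => α q b := funext fun q => h.inv g q b
    rw [h4] at h3
    have h5 : HasFDerivAt (fun q => α q b)
        ((ContinuousLinearMap.apply ℝ ℝ b).comp (fderiv ℝ α p)) p :=
      (ContinuousLinearMap.apply ℝ ℝ b).hasFDerivAt.comp p hd'.hasFDerivAt
    have h6 := congrArg (fun L : P →L[ℝ] ℝ => L a) (h3.unique h5)
    simp at h6
    linarith
  have hsym : fderiv ℝ (fderiv ℝ φ) p u v = fderiv ℝ (fderiv ℝ φ) p v u := by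
    have := (hφs.contDiffAt (x := p)).isSymmSndFDerivAt (by simp)
    exact this u v
  have k1 := key u v
  have k2 := key v u
  rw [hsym] at k1
  change fderiv ℝ α (φ p) _ _ - fderiv ℝ α (φ p) _ _ = _
  rw [ext]
  linarith

theorem fderiv_surj (hs : ∀ g : Γ, ContDiff ℝ 2 fun p : P => g • p) (g : Γ) (p w : P) :
    ∃ v, fderiv ℝ (fun q : P => g • q) p v = w := by
  have hd : ∀ (g : Γ) (p : P), DifferentiableAt ℝ (fun q : P => g • q) p := fun g p =>
    ((hs g).differentiable (by norm_num)) p
  have h1 : HasFDerivAt (fun q : P => g • q) (fderiv ℝ (fun q : P => g • q) p)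
      (g⁻¹ • (g • p)) := by
    rw [inv_smul_smul]
    exact (hd g p).hasFDerivAt
  have h2 : HasFDerivAt (fun q : P => g⁻¹ • q) (fderiv ℝ (fun q : P => g⁻¹ • q) (g • p))
      (g • p) := (hd g⁻¹ (g • p)).hasFDerivAt
  have h3 := h1.comp (g • p) h2
  have h4 : ((fun q : P => g • q) ∘ fun q : P => g⁻¹ • q) = id := by
    funext q
    simp
  rw [h4] at h3
  have h5 := h3.unique (hasFDerivAt_id (g • p))
  refine ⟨fderiv ℝ (fun q : P => g⁻¹ • q) (g • p) w, ?_⟩
  exact congrArg (fun L : P →L[ℝ] P => L w) h5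

theorem Contact.reeb_inv (h : Contact Γ α) (hs : ∀ g : Γ, ContDiff ℝ 2 fun p : P => g • p)
    (hR : Reeb α R) (g : Γ) (p : P) :
    R (g • p) = fderiv ℝ (fun q : P => g • q) p (R p) := by
  refine h.reeb_uniq (p := g • p) (hR _).1 (hR _).2 ?_ fun w => ?_
  · rw [h.inv, (hR p).1]
  · obtain ⟨v, rfl⟩ := fderiv_surj hs g p w
    rw [h.ext_inv hs, (hR p).2]

end

end MP4c1a42
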