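import Pool.Agent.Work.MP_4c1a42_gt.Resonance

set_option autoImplicit false

/-!
# Critical points and regular levels
-/

namespace MP4c1a42

open Set Metric Filter Topology

section

variable {Γ : Type} [Group Γ] [MulAction Γ P] {α : P → P →L[ℝ] ℝ} {R : P → P} {Φ : ℝ → P → P}

theorem Contact.fderiv_hh_vert (h : Contact Γ α) (p : P) (s : ℝ) :
    fderiv ℝ (hh α) (p + s • e3) = fderiv ℝ (hh α) p := by
  have h1 : (fun q : P => hh α (q + s • e3)) = hh α := funext fun q => h.hh_vert q s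
  have h2 := fderiv_comp_add_right (𝕜 := ℝ) (f := hh α) (x := p) (s • e3)
  rw [h1] at h2
  exact h2.symm

theorem vert_eq (p : P) : ((p.1, 0) : P) + p.2 • e3 = p := by
  obtain ⟨⟨a, b⟩, c⟩ := p
  simp [e3]

theorem vert_of_fst {p q : P} (h : p.1 = q.1) : p = q + (p.2 - q.2) • e3 := by
  refine Prod.ext ?_ ?_
  · simp [e3, h]
  · simp [e3]

theorem Contact.fderiv_hh_deck (h : Contact Γ α) (hD : Deck Γ) (g : Γ) {q : P}
    (hq : fderiv ℝ (hh α) q ≠ 0) : fderiv ℝ (hh α) (g • q) ≠ 0 := by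
  intro h0
  apply hq
  have h1 : HasFDerivAt (fun q : P => hh α (g • q))
      ((fderiv ℝ (hh α) (g • q)).comp (fderiv ℝ (fun q : P => g • q) q)) q :=
    ((h.hh_smooth.differentiable (by norm_num)) _).hasFDerivAt.comp q (hD.diff g q).hasFDerivAt
  have h2 : (fun q : P => hh α (g • q)) = hh α := funext fun q => h.hh_inv hD g q
  rw [h2, h0] at h1
  rw [h1.fderiv]
  simp

/-- orbits of critical points are vertical -/
theorem crit_flow (h : Contact Γ α) (hR : Reeb α R) (hΦ : IsFlow R Φ) {p : P}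
    (hp : fderiv ℝ (hh α) p = 0) : hh α p ≠ 0 ∧ ∀ t, Φ t p = p + (t / hh α p) • e3 := by
  have h1 := (h.crit_iff hR p).mp hp
  have h0 : hh α p ≠ 0 := by
    intro h0
    rw [h0, zero_smul] at h1
    have := congrArg (fun v : P => v.2) h1
    simp [e3] at this
  refine ⟨h0, fun t => ?_⟩
  have h2 : R p = (hh α p)⁻¹ • e3 := by
    rw [h1, smul_smul, inv_mul_cancel₀ h0, one_smul]
  have h3 : ∀ t : ℝ, HasDerivAt (fun t : ℝ => p + (t / hh α p) • e3)
      (R (p + (t / hh α p) • e3)) t := by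
    intro t
    rw [h.reeb_vert hR, h2]
    have := (((hasDerivAt_id t).div_const (hh α p)).smul_const e3).const_add p
    simpa using this
  have h4 := hΦ.eq (h.reeb_smooth hR) h3 t
  simp only [zero_div, zero_smul, add_zero] at h4
  exact h4.symm

theorem hh_bdd (h : Contact Γ α) (hD : Deck Γ) : ∃ H : ℝ, 0 < H ∧ ∀ p, |hh α p| ≤ H := by
  obtain ⟨K, hK, hcc⟩ := hD.cocompact
  obtain ⟨H, hH⟩ := hK.exists_bound_of_continuousOn (h.hh_smooth.continuous.continuousOn)
  refine ⟨|H| + 1, by positivity, fun p => ?_⟩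
  obtain ⟨g, hg⟩ := hcc p
  have h1 := hH _ hg
  rw [h.hh_inv hD] at h1
  exact (h1.trans (le_abs_self H)).trans (by linarith)

/-- critical points are on closed orbits of bounded period -/
theorem crit_closed (h : Contact Γ α) (hD : Deck Γ) (hR : Reeb α R) (hΦ : IsFlow R Φ) {H : ℝ}
    (hH : ∀ p, |hh α p| ≤ H) {p : P} (hp : fderiv ℝ (hh α) p = 0) :
    orb Γ Φ p ∈ orbits Γ R H := by
  obtain ⟨h0, h1⟩ := crit_flow h hR hΦ hp
  rcases lt_or_gt_of_ne h0 with h2 | h2
  · obtain ⟨g, hg⟩ := hD.shift (-1)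
    refine mem_orbits hΦ (t := -hh α p) (by linarith) ((neg_le_abs _).trans (hH p)) (g := g) ?_
    rw [h1, hg, neg_div, div_self h0]
    norm_num
  · obtain ⟨g, hg⟩ := hD.shift 1
    refine mem_orbits hΦ (t := hh α p) (by linarith) ((le_abs_self _).trans (hH p)) (g := g) ?_
    rw [h1, hg, div_self h0]
    norm_num

/-- if there are few closed orbits, then there are few critical points -/
theorem crit_countable (h : Contact Γ α) (hD : Deck Γ) (hR : Reeb α R) (hΦ : IsFlow R Φ)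
    (hfin : ∀ T, (orbits Γ R T).Finite) :
    ((fun p : P => p.1) '' {p | fderiv ℝ (hh α) p = 0}).Countable := by
  have hcG := hD.countable
  obtain ⟨H, hH0, hH⟩ := hh_bdd h hD
  have h1 : ∀ O ∈ orbits Γ R H,
      ((fun p : P => p.1) '' {p | fderiv ℝ (hh α) p = 0 ∧ orb Γ Φ p = O}).Countable := by
    intro O _
    rcases eq_empty_or_nonempty {p | fderiv ℝ (hh α) p = 0 ∧ orb Γ Φ p = O} with h0 | ⟨p, hp, hpO⟩
    · rw [h0, image_empty]
      exact countable_empty
    · refine (countable_range fun g : Γ => (g • p).1).mono ?_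
      rintro _ ⟨q, ⟨_, hqO⟩, rfl⟩
      have : q ∈ orb Γ Φ p := by
        rw [hpO, ← hqO]
        exact self_orb hΦ q
      obtain ⟨g, t, hgt⟩ := this
      refine ⟨g, ?_⟩
      change (g • p).1 = q.1
      rw [hgt, (crit_flow h hR hΦ hp).2, hD.vert]
      simp [e3]
  refine ((hfin H).countable.biUnion h1).mono ?_
  rintro _ ⟨p, hp, rfl⟩
  exact mem_iUnion₂.mpr ⟨_, crit_closed h hD hR hΦ hH hp, p, ⟨hp, rfl⟩, rfl⟩

/-- the set of noncritical points is a product -/
theorem noncrit_eq (h : Contact Γ α) : {p | fderiv ℝ (hh α) p ≠ 0} =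
    ((fun p : P => p.1) '' {p | fderiv ℝ (hh α) p = 0})ᶜ ×ˢ (univ : Set ℝ) := by
  ext p
  constructor
  · rintro hp
    refine ⟨?_, trivial⟩
    rintro ⟨q, hq, hqp⟩
    apply hp
    rw [vert_of_fst (p := p) (q := q) hqp.symm, h.fderiv_hh_vert]
    exact hq
  · rintro ⟨hp, -⟩ h0
    exact hp ⟨p, h0, rfl⟩

theorem noncrit_connected (h : Contact Γ α)
    (hc : ((fun p : P => p.1) '' {p | fderiv ℝ (hh α) p = 0}).Countable) :
    IsPreconnected {p | fderiv ℝ (hh α) p ≠ 0} := by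
  rw [noncrit_eq h]
  refine IsPreconnected.prod ?_ isPreconnected_univ
  refine (hc.isPathConnected_compl_of_one_lt_rank ?_).isConnected.isPreconnected
  rw [rank_prod', Module.rank_self]
  exact_mod_cast Nat.one_lt_two

theorem noncrit_dense (h : Contact Γ α)
    (hc : ((fun p : P => p.1) '' {p | fderiv ℝ (hh α) p = 0}).Countable) :
    Dense {p | fderiv ℝ (hh α) p ≠ 0} := by
  rw [noncrit_eq h]
  exact (hc.dense_compl ℝ).prod dense_univ

/-- there is a regular level -/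
theorem regular (h : Contact Γ α)
    (hc : ((fun p : P => p.1) '' {p | fderiv ℝ (hh α) p = 0}).Countable) :
    ∃ x, ∀ p, hh α p = hh α x → fderiv ℝ (hh α) p ≠ 0 := by
  have h1 : (hh α '' {p | fderiv ℝ (hh α) p = 0}).Countable := by
    refine (hc.image fun v : ℝ × ℝ => hh α (v, 0)).mono ?_
    rintro _ ⟨p, hp, rfl⟩
    refine ⟨p.1, ⟨p, hp, rfl⟩, ?_⟩
    have := h.hh_vert (p.1, 0) p.2
    rw [vert_eq] at this
    exact this.symm
  -- `h` is not constant
  obtain ⟨x, hx⟩ : ∃ x, fderiv ℝ (hh α) x ≠ 0 := (noncrit_dense h hc).nonempty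
  obtain ⟨a, b, hab⟩ : ∃ a b, hh α a < hh α b := by
    by_contra hcon
    push Not at hcon
    have : hh α = fun _ => hh α x := funext fun p => le_antisymm (hcon x p) (hcon p x)
    rw [this] at hx
    exact hx (fderiv_const_apply _)
  have h2 : Icc (hh α a) (hh α b) ⊆ range (hh α) :=
    intermediate_value_univ a b h.hh_smooth.continuous
  have h3 : ∃ c ∈ Icc (hh α a) (hh α b), c ∉ hh α '' {p | fderiv ℝ (hh α) p = 0} := by
    by_contra hcon
    push Not at hcon
    have h4 : (Icc (hh α a) (hh α b)).Countable := h1.mono fun c hc' => hcon c hc'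
    have h5 := h4.le_aleph0
    rw [Cardinal.mk_Icc_real hab] at h5
    exact absurd h5 (not_le.mpr Cardinal.aleph0_lt_continuum)
  obtain ⟨c, hc1, hc2⟩ := h3
  obtain ⟨y, hy⟩ := h2 hc1
  refine ⟨y, fun p hp h0 => hc2 ⟨p, h0, ?_⟩⟩
  rw [hp, hy]

/-- an orbit on a regular level comes back to its translates -/
theorem exists_return (h : Contact Γ α) (hD : Deck Γ) (hR : Reeb α R) (hΦ : IsFlow R Φ) {x : P}
    (hx : ∀ p, hh α p = hh α x → fderiv ℝ (hh α) p ≠ 0) :
    ∃ (y : P) (T δ : ℝ) (g : Γ), fderiv ℝ (hh α) y ≠ 0 ∧ 0 < T ∧ Φ T y = g • y + δ • e3 := by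
  have hRs := h.reeb_smooth hR
  obtain ⟨K, hK, hcc⟩ := hD.cocompact
  choose G hG using fun n : ℕ => hcc (Φ n x)
  obtain ⟨k, -, φ, hφ, hlim⟩ := hK.tendsto_subseq hG
  have hhk : hh α k = hh α x := by
    have h1 : Tendsto (fun n => hh α (G (φ n) • Φ (φ n) x)) atTop (𝓝 (hh α k)) :=
      (h.hh_smooth.continuous.tendsto k).comp hlim
    have h2 : (fun n => hh α (G (φ n) • Φ (φ n) x)) = fun _ => hh α x := by
      funext n
      rw [h.hh_inv hD, hΦ.hh h hR]
    rw [h2] at h1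
    exact tendsto_nhds_unique h1 tendsto_const_nhds
  obtain ⟨ρ, hρ, η, hη, C, hC, hloc, -⟩ := loc h hR hΦ (hx k hhk)
  have hev : ∀ᶠ n in atTop, dist (G (φ n) • Φ (φ n) x) k < min ρ (1 / (4 * C)) :=
    hlim.eventually (Metric.ball_mem_nhds k (by positivity))
  obtain ⟨N, hN⟩ := eventually_atTop.mp hev
  have hm := hN N le_rfl
  have hn := hN (N + 1) (by omega)
  set m := φ N with hmdef
  set n := φ (N + 1) with hndef
  have hmn : m < n := hφ (by omega)
  obtain ⟨s, t, hs, -, hst⟩ := hloc (G m • Φ m x) (lt_of_lt_of_le hm (min_le_left _ _))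
    (G n • Φ n x) (lt_of_lt_of_le hn (min_le_left _ _)) (by
      rw [h.hh_inv hD, h.hh_inv hD, hΦ.hh h hR, hΦ.hh h hR])
  have hs' : |s| < 1 := by
    have h1 : dist (G m • Φ m x) (G n • Φ n x) < 1 / (4 * C) + 1 / (4 * C) := by
      refine lt_of_le_of_lt (dist_triangle _ k _) ?_
      rw [dist_comm k]
      exact add_lt_add (lt_of_lt_of_le hm (min_le_right _ _)) (lt_of_lt_of_le hn (min_le_right _ _))
    have h2 : 1 / (4 * C) + 1 / (4 * C) = 1 / 2 / C := by
      field_simp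
      norm_num
    rw [h2, lt_div_iff₀ hC] at h1
    linarith
  have hmn' : (m : ℝ) + 1 ≤ n := by exact_mod_cast hmn
  rw [abs_lt] at hs'
  refine ⟨Φ (s + m) x, n - (s + m), t, (G n)⁻¹ * G m, ?_, by linarith, ?_⟩
  · exact hx _ (hΦ.hh h hR _ _)
  · rw [← hΦ.add hRs, sub_add_cancel, mul_smul, ← hD.vert, ← hD.vert]
    rw [hΦ.deck h hD hR, ← hΦ.add hRs] at hst
    rw [← inv_smul_smul (G n) (Φ n x), hst, hD.vert, hD.vert, hD.vert]

end

end MP4c1a42
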