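import Mathlib

set_option autoImplicit false

/-!
# Contact forms with a circle symmetry on closed aspherical Seifert fibred 3-manifolds

`P = ℝ² × ℝ` is the universal covering, `Γ` the group of deck transformations, and the (local)
circle action is the vertical translation. The closed 3-manifolds of this form are the closed
aspherical Seifert fibred 3-manifolds; those on which `Γ` commutes with the vertical translations
are the closed aspherical 3-manifolds with a circle action.
-/

namespace MP4c1a42

open Set

/-- `ℝ² × ℝ` -/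
abbrev P : Type := (ℝ × ℝ) × ℝ

/-- the standard basis -/
def e1 : P := ((1, 0), 0)

/-- the standard basis -/
def e2 : P := ((0, 1), 0)

/-- the vertical direction -/
def e3 : P := ((0, 0), 1)

/-- the exterior derivative `dα(v, w)` at `p` of a 1-form `α` -/
noncomputable def ext (α : P → P →L[ℝ] ℝ) (p v w : P) : ℝ :=
  fderiv ℝ α p v w - fderiv ℝ α p w v

/-- `P / Γ` is compact; `Γ` acts properly discontinuously by diffeomorphisms that preserve the
vertical translations up to the sign of the vertical direction, and contains the vertical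
translation by one. So `P / Γ` is Seifert fibred by the images of the vertical lines. -/
structure Seifert (Γ : Type) [Group Γ] [MulAction Γ P] : Prop where
  smooth : ∀ g : Γ, ContDiff ℝ 2 fun p : P => g • p
  vert : ∀ g : Γ, (∀ (p : P) (s : ℝ), g • (p + s • e3) = g • p + s • e3) ∨
    ∀ (p : P) (s : ℝ), g • (p + s • e3) = g • p - s • e3
  unit : ∃ g : Γ, ∀ p : P, g • p = p + e3
  proper : ∀ K L : Set P, IsCompact K → IsCompact L → {g : Γ | ∃ p ∈ K, g • p ∈ L}.Finite
  cocompact : ∃ K : Set P, IsCompact K ∧ ∀ p : P, ∃ g : Γ, g • p ∈ K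

/-- `α` is a contact form invariant under `Γ` and under the vertical translations -/
structure Contact (Γ : Type) [Group Γ] [MulAction Γ P] (α : P → P →L[ℝ] ℝ) : Prop where
  smooth : ContDiff ℝ 2 α
  contact : ∀ p, α p e1 * ext α p e2 e3 + α p e2 * ext α p e3 e1 + α p e3 * ext α p e1 e2 ≠ 0
  vert : ∀ (p : P) (s : ℝ), α (p + s • e3) = α p
  inv : ∀ (g : Γ) (p v : P), α (g • p) (fderiv ℝ (fun q : P => g • q) p v) = α p v

/-- `R` is the Reeb vector field of `α` -/
def Reeb (α : P → P →L[ℝ] ℝ) (R : P → P) : Prop :=
  ∀ p, α p (R p) = 1 ∧ ∀ v, ext α p (R p) v = 0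

/-- the closed orbits (as subsets of `P`, invariant under `Γ`) in `P / Γ` of the vector field `R`
with (minimal) period at most `T` -/
def orbits (Γ : Type) [Group Γ] [MulAction Γ P] (R : P → P) (T : ℝ) : Set (Set P) :=
  {O | ∃ γ : ℝ → P, (∀ t, HasDerivAt γ (R (γ t)) t) ∧
    (∃ t : ℝ, 0 < t ∧ t ≤ T ∧ ∃ g : Γ, γ t = g • γ 0) ∧
    O = {q | ∃ (g : Γ) (t : ℝ), q = g • γ t}}

end MP4c1a42
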