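import Pool.Agent.Work.MP_4c1a42_gt.Open

set_option autoImplicit false

/-!
# Infinitely many closed orbits
-/

namespace MP4c1a42

open Set Metric Filter Topology Asymptotics

section

variable {Γ : Type} [Group Γ] [MulAction Γ P] {α : P → P →L[ℝ] ℝ} {R : P → P} {Φ : ℝ → P → P}

/-- all orbits close up at the same time, up to a vertical shift -/
theorem everywhere (h : Contact Γ α) (hD : Deck Γ) (hR : Reeb α R) (hΦ : IsFlow R Φ)
    (hfin : ∀ T, (orbits Γ R T).Finite) {q₀ : P} (hq₀ : fderiv ℝ (hh α) q₀ ≠ 0) {T δ : ℝ} {g : Γ}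
    (hT : 0 < T) (hg : Φ T q₀ = g • q₀ + δ • e3) : ∀ q, Φ T q = g • q + δ • e3 := by
  have hRs := h.reeb_smooth hR
  have hc := crit_countable h hD hR hΦ hfin
  set W : Set P := {q | Φ T q = g • q + δ • e3} with hW
  have hWc : IsClosed W := isClosed_eq (hΦ.contx hRs T) ((hD.cont g).add continuous_const)
  have hop : ∀ q ∈ W, fderiv ℝ (hh α) q ≠ 0 → q ∈ interior W := by
    intro q hq hq'
    rw [mem_interior_iff_mem_nhds]
    exact open_at h hD hR hΦ hfin hq' hT hq
  have h1 : {p | fderiv ℝ (hh α) p ≠ 0} ⊆ interior W := by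
    refine (noncrit_connected h hc).subset_of_closure_inter_subset isOpen_interior
      ⟨q₀, hq₀, hop q₀ hg hq₀⟩ ?_
    rintro q ⟨hq, hq'⟩
    exact hop q (hWc.closure_subset_iff.mpr interior_subset hq) hq'
  have h2 : W = univ := by
    have := (noncrit_dense h hc).closure_eq
    refine eq_univ_of_univ_subset ?_
    rw [← this]
    exact hWc.closure_subset_iff.mpr (h1.trans interior_subset)
  intro q
  have : q ∈ W := h2 ▸ mem_univ q
  exact this

/-- a deck transformation that shifts one vertical line has a power that is an integer shift -/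
theorem power (hD : Deck Γ) {p : P} {g : Γ} {σ : ℝ} (hg : g • p = p + σ • e3) :
    ∃ k : ℕ, 0 < k ∧ ∃ m : ℤ, ∀ q : P, g ^ k • q = q + (m : ℝ) • e3 := by
  have hpow : ∀ k : ℕ, g ^ k • p = p + (k * σ) • e3 := by
    intro k
    induction k with
    | zero => simp
    | succ k ih =>
      rw [pow_succ', mul_smul, ih, hD.vert, hg, add_assoc, ← add_smul]
      congr 2
      push_cast
      ring
  choose τ hτ using hD.shift
  set f : ℕ → Γ := fun k => τ (-⌊(k : ℝ) * σ⌋) * g ^ k with hf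
  have hmem : ∀ k, f k ∈ {g : Γ | ∃ x ∈ ({p} : Set P), g • x ∈
      (fun s : ℝ => p + s • e3) '' Icc 0 1} := by
    intro k
    refine ⟨p, rfl, Int.fract ((k : ℝ) * σ), ⟨Int.fract_nonneg _, (Int.fract_lt_one _).le⟩, ?_⟩
    change p + Int.fract ((k : ℝ) * σ) • e3 = (τ (-⌊(k : ℝ) * σ⌋) * g ^ k) • p
    rw [mul_smul (τ _) (g ^ k), hτ, hpow, add_assoc, ← add_smul]
    congr 2
    rw [Int.fract]
    push_cast
    ring
  have hfin := hD.proper {p} ((fun s : ℝ => p + s • e3) '' Icc 0 1) isCompact_singleton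
    (isCompact_Icc.image (continuous_const.add (continuous_id.smul continuous_const)))
  obtain ⟨a, b, hab, hfab⟩ : ∃ a b : ℕ, a < b ∧ f a = f b := by
    by_contra hcon
    push Not at hcon
    have hinj : Function.Injective f := by
      intro a b hab
      rcases lt_trichotomy a b with h1 | h1 | h1
      · exact absurd hab (hcon a b h1)
      · exact h1
      · exact absurd hab.symm (hcon b a h1)
    have hinf : (range f).Infinite := infinite_range_of_injective hinj
    exact hinf (hfin.subset (range_subset_iff.mpr hmem))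
  refine ⟨b - a, by omega, ⌊(b : ℝ) * σ⌋ - ⌊(a : ℝ) * σ⌋, fun q => ?_⟩
  have h1 : f a • ((g ^ a)⁻¹ • q) = f b • ((g ^ a)⁻¹ • q) := by rw [hfab]
  simp only [hf, mul_smul (τ _) (g ^ _), hτ] at h1
  rw [smul_inv_smul] at h1
  have h2 : g ^ b • (g ^ a)⁻¹ • q = g ^ (b - a) • q := by
    have : g ^ b = g ^ (b - a) * g ^ a := by
      rw [← pow_add]
      congr 1
      omega
    rw [this, mul_smul, smul_inv_smul]
  rw [h2] at h1
  have h3 : g ^ (b - a) • q = q + ((-⌊(a : ℝ) * σ⌋ : ℤ) : ℝ) • e3 -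
      ((-⌊(b : ℝ) * σ⌋ : ℤ) : ℝ) • e3 := by
    rw [h1]
    abel
  rw [h3, add_sub_assoc, ← sub_smul]
  congr 2
  push_cast
  ring

/-- an extremal point -/
theorem extremal (h : Contact Γ α) (hD : Deck Γ) :
    (∃ p, ∀ q, hh α q ≤ hh α p) ∧ ∃ p, ∀ q, hh α p ≤ hh α q := by
  obtain ⟨K, hK, hcc⟩ := hD.cocompact
  have hne : K.Nonempty := by
    obtain ⟨g, hg⟩ := hcc 0
    exact ⟨_, hg⟩
  obtain ⟨p, hp, hmax⟩ := hK.exists_isMaxOn hne h.hh_smooth.continuous.continuousOn
  obtain ⟨p', hp', hmin⟩ := hK.exists_isMinOn hne h.hh_smooth.continuous.continuousOn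
  refine ⟨⟨p, fun q => ?_⟩, ⟨p', fun q => ?_⟩⟩
  · obtain ⟨g, hg⟩ := hcc q
    have h1 : hh α (g • q) ≤ hh α p := hmax hg
    rwa [h.hh_inv hD] at h1
  · obtain ⟨g, hg⟩ := hcc q
    have h1 : hh α p' ≤ hh α (g • q) := hmin hg
    rwa [h.hh_inv hD] at h1

/-- the main theorem -/
theorem main (h : Contact Γ α) (hD : Deck Γ) (hR : Reeb α R) : ∃ T, (orbits Γ R T).Infinite := by
  by_contra hcon
  push Not at hcon
  have hfin : ∀ T, (orbits Γ R T).Finite := hcon
  obtain ⟨Φ, hΦ⟩ := exists_flow h hD hR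
  have hRs := h.reeb_smooth hR
  have hc := crit_countable h hD hR hΦ hfin
  obtain ⟨x, hx⟩ := regular h hc
  obtain ⟨y, T, δ, g, hy, hT, hyT⟩ := exists_return h hD hR hΦ hx
  have hall := everywhere h hD hR hΦ hfin hy hT hyT
  obtain ⟨⟨p, hp⟩, ⟨p', hp'⟩⟩ := extremal h hD
  have hpc : fderiv ℝ (hh α) p = 0 :=
    IsLocalMax.fderiv_eq_zero (Eventually.of_forall hp)
  have hpc' : fderiv ℝ (hh α) p' = 0 :=
    IsLocalMin.fderiv_eq_zero (Eventually.of_forall hp')
  obtain ⟨h0, h1⟩ := crit_flow h hR hΦ hpc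
  obtain ⟨h0', h1'⟩ := crit_flow h hR hΦ hpc'
  have hgp : g • p = p + (T / hh α p - δ) • e3 := by
    have := hall p
    rw [h1] at this
    rw [sub_smul, ← add_sub_assoc, this]
    abel
  obtain ⟨k, hk, m, hkm⟩ := power hD hgp
  have hper : ∀ q, Φ (k * T) q = q + ((m : ℝ) + k * δ) • e3 := by
    intro q
    rw [iter h hD hR hΦ (hall q), hkm, add_assoc, ← add_smul]
  have hcrit : ∀ z : P, hh α z ≠ 0 → (∀ t, Φ t z = z + (t / hh α z) • e3) →
      k * T = hh α z * ((m : ℝ) + k * δ) := by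
    intro z hz0 hz
    have h2 := hper z
    rw [hz] at h2
    have h3 := congrArg (fun v : P => v.2) (add_left_cancel h2)
    simp only [e3, Prod.smul_snd, smul_eq_mul, mul_one] at h3
    rw [div_eq_iff hz0] at h3
    rw [h3]
    ring
  have e1 := hcrit p h0 h1
  have e2 := hcrit p' h0' h1'
  have hkT : (k : ℝ) * T ≠ 0 := by positivity
  have hne : (m : ℝ) + k * δ ≠ 0 := by
    intro h0
    rw [h0, mul_zero] at e1
    exact hkT e1
  have heq : hh α p = hh α p' := mul_right_cancel₀ hne (e1.symm.trans e2)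
  have hconst : hh α = fun _ => hh α p := by
    funext q
    exact le_antisymm (hp q) (heq ▸ hp' q)
  apply hy
  rw [hconst]
  exact fderiv_const_apply _

end

end MP4c1a42
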