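import Pool.Agent.Work.MP_4c1a42_gt.Basic

set_option autoImplicit false

/-!
# The Reeb flow
-/

namespace MP4c1a42

open Set Metric Filter Topology
open scoped Manifold ContDiff NNReal

theorem toM {γ : ℝ → P} {t : ℝ} {v : P} (h : HasDerivAt γ v t) :
    HasMFDerivAt 𝓘(ℝ, ℝ) 𝓘(ℝ, P) γ t ((1 : ℝ →L[ℝ] ℝ).smulRight v) := by
  have h1 : HasFDerivAt γ ((1 : ℝ →L[ℝ] ℝ).smulRight v) t := by
    rw [hasDerivAt_iff_hasFDerivAt] at h
    convert! h using 1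
  exact h1.hasMFDerivAt

theorem ofM {γ : ℝ → P} {t : ℝ} {v : P}
    (h : HasMFDerivAt 𝓘(ℝ, ℝ) 𝓘(ℝ, P) γ t ((1 : ℝ →L[ℝ] ℝ).smulRight v)) :
    HasDerivAt γ v t := by
  have h1 : HasFDerivAt γ ((1 : ℝ →L[ℝ] ℝ).smulRight v) t := hasMFDerivAt_iff_hasFDerivAt.mp h
  rw [hasDerivAt_iff_hasFDerivAt]
  convert! h1 using 1

/-- uniform time lemma -/
theorem global_sol {R : P → P} (hR : ContDiff ℝ 1 R) {ε : ℝ} (hε : 0 < ε)
    (h : ∀ p, ∃ γ : ℝ → P, γ 0 = p ∧ ∀ t ∈ Ioo (-ε) ε, HasDerivAt γ (R (γ t)) t) (p : P) :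
    ∃ γ : ℝ → P, γ 0 = p ∧ ∀ t, HasDerivAt γ (R (γ t)) t := by
  have hv : ContMDiff 𝓘(ℝ, P) 𝓘(ℝ, P).tangent 1
      (fun x => (⟨x, R x⟩ : TangentBundle 𝓘(ℝ, P) P)) :=
    contMDiff_vectorSpace_iff_contDiff.mpr hR
  have hh : ∀ x : P, ∃ γ : ℝ → P, γ 0 = x ∧
      IsMIntegralCurveOn (I := 𝓘(ℝ, P)) γ R (Ioo (-ε) ε) := by
    intro x
    obtain ⟨γ, h0, h1⟩ := h x
    refine ⟨γ, h0, fun t ht => ?_⟩
    exact (toM (h1 t ht)).hasMFDerivWithinAt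
  obtain ⟨γ, h0, h1⟩ := exists_isMIntegralCurve_of_isMIntegralCurveOn hv hε hh p
  exact ⟨γ, h0, fun t => ofM (h1 t)⟩

/-- uniqueness -/
theorem unique_sol {R : P → P} (hR : ContDiff ℝ 1 R) {γ γ' : ℝ → P} {t₀ : ℝ}
    (h : ∀ t, HasDerivAt γ (R (γ t)) t) (h' : ∀ t, HasDerivAt γ' (R (γ' t)) t)
    (h0 : γ t₀ = γ' t₀) : γ = γ' := by
  have hv : ContMDiff 𝓘(ℝ, P) 𝓘(ℝ, P).tangent 1
      (fun x => (⟨x, R x⟩ : TangentBundle 𝓘(ℝ, P) P)) :=
    contMDiff_vectorSpace_iff_contDiff.mpr hR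
  refine isMIntegralCurve_Ioo_eq_of_contMDiff_boundaryless (t₀ := t₀) hv ?_ ?_ h0
  · exact fun t => toM (h t)
  · exact fun t => toM (h' t)

/-- `Φ` is the flow of `R` -/
structure IsFlow (R : P → P) (Φ : ℝ → P → P) : Prop where
  zero : ∀ p, Φ 0 p = p
  der : ∀ t p, HasDerivAt (fun t => Φ t p) (R (Φ t p)) t

section

variable {Γ : Type} [Group Γ] [MulAction Γ P] {α : P → P →L[ℝ] ℝ} {R : P → P} {Φ : ℝ → P → P}

/-- images of solutions under deck transformations -/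
theorem Contact.sol_inv (h : Contact Γ α) (hs : ∀ g : Γ, ContDiff ℝ 2 fun p : P => g • p)
    (hR : Reeb α R) (g : Γ) {γ : ℝ → P} {t : ℝ}
    (hγ : HasDerivAt γ (R (γ t)) t) : HasDerivAt (fun t => g • γ t) (R (g • γ t)) t := by
  rw [h.reeb_inv hs hR]
  exact ((((hs g).differentiable (by norm_num)) (γ t)).hasFDerivAt).comp_hasDerivAt t hγ

/-- existence of the Reeb flow -/
theorem exists_flow (h : Contact Γ α) (hD : Deck Γ) (hR : Reeb α R) : ∃ Φ, IsFlow R Φ := by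
  have hRs := h.reeb_smooth hR
  obtain ⟨K, hK, hcc⟩ := hD.cocompact
  -- uniform time on `K`
  have hloc : ∀ x : P, ∃ r > (0 : ℝ), ∃ ε > (0 : ℝ), ∀ y ∈ closedBall x r, ∃ γ : ℝ → P,
      γ 0 = y ∧ ∀ t ∈ Ioo (0 - ε) (0 + ε), HasDerivAt γ (R (γ t)) t := fun x =>
    ContDiffAt.exists_forall_mem_closedBall_exists_eq_forall_mem_Ioo_hasDerivAt
      (hRs.contDiffAt (x := x)) 0
  choose r hr ε hε hsol using hloc
  obtain ⟨s, hs⟩ := hK.elim_nhds_subcover (fun x => closedBall x (r x))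
    (fun x _ => closedBall_mem_nhds x (hr x))
  obtain ⟨ε₀, hε₀, hmin⟩ : ∃ ε₀ > (0 : ℝ), ∀ x ∈ s, ε₀ ≤ ε x := by
    classical
    by_cases hne : s.Nonempty
    · refine ⟨s.inf' hne ε, ?_, fun x hx => Finset.inf'_le _ hx⟩
      rw [gt_iff_lt, Finset.lt_inf'_iff]
      exact fun x _ => hε x
    · rw [Finset.not_nonempty_iff_eq_empty] at hne
      exact ⟨1, one_pos, by simp [hne]⟩
  have hun : ∀ p, ∃ γ : ℝ → P, γ 0 = p ∧ ∀ t ∈ Ioo (-ε₀) ε₀, HasDerivAt γ (R (γ t)) t := by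
    intro p
    obtain ⟨g, hg⟩ := hcc p
    obtain ⟨x, hx, hgx⟩ := mem_iUnion₂.mp (hs.2 hg)
    obtain ⟨γ, h0, h1⟩ := hsol x (g • p) hgx
    refine ⟨fun t => g⁻¹ • γ t, ?_, fun t ht => ?_⟩
    · change g⁻¹ • γ 0 = p
      rw [h0, inv_smul_smul]
    · have := hmin x hx
      exact h.sol_inv hD.smooth hR g⁻¹ (h1 t ⟨by linarith [ht.1], by linarith [ht.2]⟩)
  choose Φ h0 h1 using global_sol hRs hε₀ hun
  exact ⟨fun t p => Φ p t, h0, fun t p => h1 p t⟩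

theorem IsFlow.eq (hΦ : IsFlow R Φ) (hRs : ContDiff ℝ 1 R) {γ : ℝ → P}
    (h : ∀ t, HasDerivAt γ (R (γ t)) t) (t : ℝ) : γ t = Φ t (γ 0) := by
  have := unique_sol (t₀ := 0) hRs h (fun t => hΦ.der t (γ 0)) (hΦ.zero _).symm
  exact congrFun this t

theorem IsFlow.add (hΦ : IsFlow R Φ) (hRs : ContDiff ℝ 1 R) (s t : ℝ) (p : P) :
    Φ (s + t) p = Φ s (Φ t p) := by
  have h1 : ∀ s, HasDerivAt (fun s => Φ (s + t) p) (R (Φ (s + t) p)) s := fun s =>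
    (hΦ.der (s + t) p).comp_add_const s t
  have := hΦ.eq hRs h1 s
  simpa using this

theorem IsFlow.neg (hΦ : IsFlow R Φ) (hRs : ContDiff ℝ 1 R) (t : ℝ) (p : P) :
    Φ (-t) (Φ t p) = p := by
  rw [← hΦ.add hRs, neg_add_cancel, hΦ.zero]

theorem IsFlow.vert (hΦ : IsFlow R Φ) (h : Contact Γ α) (hR : Reeb α R) (t : ℝ) (p : P) (s : ℝ) :
    Φ t (p + s • e3) = Φ t p + s • e3 := by
  have h1 : ∀ t, HasDerivAt (fun t => Φ t p + s • e3) (R (Φ t p + s • e3)) t := by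
    intro t
    rw [h.reeb_vert hR]
    exact (hΦ.der t p).add_const _
  have := hΦ.eq (h.reeb_smooth hR) h1 t
  rw [hΦ.zero] at this
  exact this.symm

theorem IsFlow.deck (hΦ : IsFlow R Φ) (h : Contact Γ α) (hD : Deck Γ) (hR : Reeb α R) (t : ℝ)
    (g : Γ) (p : P) : Φ t (g • p) = g • Φ t p := by
  have h1 : ∀ t, HasDerivAt (fun t => g • Φ t p) (R (g • Φ t p)) t := fun t =>
    h.sol_inv hD.smooth hR g (hΦ.der t p)
  have := hΦ.eq (h.reeb_smooth hR) h1 t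
  rw [hΦ.zero] at this
  exact this.symm

theorem IsFlow.cont (hΦ : IsFlow R Φ) (p : P) : Continuous fun t => Φ t p :=
  continuous_iff_continuousAt.mpr fun t => (hΦ.der t p).continuousAt

theorem IsFlow.hh (hΦ : IsFlow R Φ) (h : Contact Γ α) (hR : Reeb α R) (t : ℝ) (p : P) :
    hh α (Φ t p) = hh α p := by
  have h1 : ∀ t, HasDerivAt (fun t => MP4c1a42.hh α (Φ t p)) 0 t := by
    intro t
    have hd : DifferentiableAt ℝ (MP4c1a42.hh α) (Φ t p) :=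
      (h.hh_smooth.differentiable (by norm_num)) _
    have := hd.hasFDerivAt.comp_hasDerivAt t (hΦ.der t p)
    rw [h.fderiv_hh_reeb hR] at this
    exact this
  have h2 := is_const_of_deriv_eq_zero (fun t => (h1 t).differentiableAt) (fun t => (h1 t).deriv) t 0
  rw [h2, hΦ.zero]

end

end MP4c1a42
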