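import Pool.Agent.Work.MP_4c1a42_gt.Flow

set_option autoImplicit false

/-!
# Lipschitz dependence of the flow on the initial point
-/

namespace MP4c1a42

open Set Metric Filter Topology
open scoped NNReal

/-- Lipschitz constants of a vector field on balls -/
theorem lip_ball {R : P → P} (hR : ContDiff ℝ 1 R) (M : ℝ) :
    ∃ L : ℝ≥0, LipschitzOnWith L R (closedBall (0 : P) M) := by
  have hc : ContinuousOn (fderiv ℝ R) (closedBall (0 : P) M) :=
    (hR.continuous_fderiv (by norm_num)).continuousOn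
  obtain ⟨C, hC⟩ := (isCompact_closedBall (0 : P) M).exists_bound_of_continuousOn hc
  refine ⟨C.toNNReal, (convex_closedBall (0 : P) M).lipschitzOnWith_of_nnnorm_fderiv_le
    (fun x _ => (hR.differentiable (by norm_num)) x) fun x hx => ?_⟩
  have h1 := hC x hx
  have : 0 ≤ C := (norm_nonneg _).trans h1
  rw [← NNReal.coe_le_coe, coe_nnnorm, Real.coe_toNNReal C this]
  exact h1

/-- trajectories starting near `p` -/
theorem IsFlow.lip {R : P → P} {Φ : ℝ → P → P} (hΦ : IsFlow R Φ) (hR : ContDiff ℝ 1 R) (p : P)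
    (T : ℝ) : ∃ r > 0, ∃ C > 0, ∀ x ∈ ball p r, ∀ y ∈ ball p r, ∀ t ∈ Icc 0 T,
      dist (Φ t x) (Φ t y) ≤ C * dist x y ∧ dist (Φ t x) (Φ t p) < 1 := by
  have hcont : Continuous fun t => Φ t p :=
    continuous_iff_continuousAt.mpr fun t => (hΦ.der t p).continuousAt
  have hcont' : ∀ x, Continuous fun t => Φ t x := fun x =>
    continuous_iff_continuousAt.mpr fun t => (hΦ.der t x).continuousAt
  obtain ⟨M, hM⟩ := (isCompact_Icc (a := (0 : ℝ)) (b := T)).exists_bound_of_continuousOn
    hcont.continuousOn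
  obtain ⟨L, hL⟩ := lip_ball hR (M + 1)
  have hin : ∀ t ∈ Icc 0 T, ∀ z : P, dist z (Φ t p) ≤ 1 → z ∈ closedBall (0 : P) (M + 1) := by
    intro t ht z hz
    rw [mem_closedBall, dist_zero_right]
    have h1 := hM t ht
    have h2 : ‖z‖ ≤ ‖z - Φ t p‖ + ‖Φ t p‖ := by
      have := norm_add_le (z - Φ t p) (Φ t p)
      rwa [sub_add_cancel] at this
    rw [dist_eq_norm] at hz
    linarith
  set E : ℝ := Real.exp (L * T) with hE
  have hE0 : 0 < E := Real.exp_pos _
  have hE1 : ∀ t ∈ Icc 0 T, Real.exp (L * t) ≤ E := fun t ht =>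
    Real.exp_le_exp.mpr (mul_le_mul_of_nonneg_left ht.2 L.2)
  -- stays in the tube
  have hstay : ∀ x ∈ ball p (1 / (2 * E)), ∀ t ∈ Icc 0 T,
      dist (Φ t x) (Φ t p) ≤ dist x p * Real.exp (L * t) := by
    intro x hx
    have hsmall : dist x p * E < 1 := by
      rw [mem_ball, lt_div_iff₀ (by positivity)] at hx
      nlinarith [mul_nonneg (dist_nonneg (x := x) (y := p)) hE0.le]
    have hclosed : IsClosed ({t | dist (Φ t x) (Φ t p) ≤ dist x p * Real.exp (L * t)} ∩ Icc 0 T) := by
      refine IsClosed.inter (isClosed_le ((hcont' x).dist hcont) ?_) isClosed_Icc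
      exact continuous_const.mul (Real.continuous_exp.comp (continuous_const.mul continuous_id))
    refine hclosed.Icc_subset_of_forall_exists_gt ?_ ?_
    · simp [hΦ.zero]
    · rintro t ⟨ht, ht0, htT⟩ y hy
      have hlt : dist (Φ t x) (Φ t p) < 1 := by
        refine lt_of_le_of_lt ht (lt_of_le_of_lt ?_ hsmall)
        exact mul_le_mul_of_nonneg_left (hE1 t ⟨ht0, htT.le⟩) dist_nonneg
      have hev : ∀ᶠ s in 𝓝 t, dist (Φ s x) (Φ s p) < 1 :=
        ((hcont' x).dist hcont).continuousAt.eventually_lt continuousAt_const hlt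
      obtain ⟨η, hη, hball⟩ := Metric.eventually_nhds_iff.mp hev
      set b : ℝ := min (min y T) (t + η / 2) with hb
      have hbt : t < b := lt_min (lt_min hy htT) (by linarith)
      have hby : b ≤ y := (min_le_left _ _).trans (min_le_left _ _)
      have hbT : b ≤ T := (min_le_left _ _).trans (min_le_right _ _)
      have hbη : b ≤ t + η / 2 := min_le_right _ _
      have hmem : ∀ s ∈ Ico t b, dist (Φ s x) (Φ s p) ≤ 1 := by
        intro s hs
        refine (hball ?_).le
        rw [Real.dist_eq, abs_lt]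
        constructor <;> linarith [hs.1, hs.2]
      have := dist_le_of_trajectories_ODE_of_mem (v := fun _ => R) (K := L)
        (s := fun _ => closedBall (0 : P) (M + 1)) (f := fun s => Φ s x) (g := fun s => Φ s p)
        (a := t) (b := b) (δ := dist x p * Real.exp (L * t)) (fun _ _ => hL)
        (hcont' x).continuousOn (fun s _ => (hΦ.der s x).hasDerivWithinAt)
        (fun s hs => hin s ⟨ht0.trans hs.1, hs.2.le.trans hbT⟩ _ (hmem s hs))
        hcont.continuousOn (fun s _ => (hΦ.der s p).hasDerivWithinAt)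
        (fun s hs => hin s ⟨ht0.trans hs.1, hs.2.le.trans hbT⟩ _ (by simp)) ht b ⟨hbt.le, le_rfl⟩
      refine ⟨b, ?_, hbt, hby⟩
      change dist (Φ b x) (Φ b p) ≤ _
      refine this.trans (le_of_eq ?_)
      rw [mul_assoc, ← Real.exp_add]
      congr 2
      ring
  refine ⟨1 / (2 * E), by positivity, E, hE0, fun x hx y hy t ht => ⟨?_, ?_⟩⟩
  · have hst : ∀ x ∈ ball p (1 / (2 * E)), ∀ t ∈ Icc 0 T, Φ t x ∈ closedBall (0 : P) (M + 1) := by
      intro x hx t ht
      refine hin t ht _ ((hstay x hx t ht).trans ?_)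
      have h1 := hE1 t ht
      rw [mem_ball, lt_div_iff₀ (by positivity)] at hx
      nlinarith [mul_le_mul_of_nonneg_left h1 (dist_nonneg (x := x) (y := p)),
        mul_nonneg (dist_nonneg (x := x) (y := p)) hE0.le]
    have := dist_le_of_trajectories_ODE_of_mem (v := fun _ => R) (K := L)
        (s := fun _ => closedBall (0 : P) (M + 1)) (f := fun s => Φ s x) (g := fun s => Φ s y)
        (a := 0) (b := T) (δ := dist x y) (fun _ _ => hL)
        (hcont' x).continuousOn (fun s _ => (hΦ.der s x).hasDerivWithinAt)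
        (fun s hs => hst x hx s ⟨hs.1, hs.2.le⟩)
        (hcont' y).continuousOn (fun s _ => (hΦ.der s y).hasDerivWithinAt)
        (fun s hs => hst y hy s ⟨hs.1, hs.2.le⟩) (by simp [hΦ.zero]) t ht
    rw [sub_zero] at this
    refine this.trans ?_
    rw [mul_comm]
    exact mul_le_mul_of_nonneg_right (hE1 t ht) dist_nonneg
  · refine lt_of_le_of_lt (hstay x hx t ht) ?_
    have h1 := hE1 t ht
    rw [mem_ball, lt_div_iff₀ (by positivity)] at hx
    nlinarith [mul_le_mul_of_nonneg_left h1 (dist_nonneg (x := x) (y := p)),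
        mul_nonneg (dist_nonneg (x := x) (y := p)) hE0.le]

theorem IsFlow.reverse {R : P → P} {Φ : ℝ → P → P} (hΦ : IsFlow R Φ) :
    IsFlow (fun p => -R p) (fun t p => Φ (-t) p) := by
  refine ⟨fun p => by simp [hΦ.zero], fun t p => ?_⟩
  have := (hΦ.der (-t) p).scomp t (hasDerivAt_neg t)
  rw [neg_one_smul] at this
  exact this

/-- two-sided version -/
theorem IsFlow.lip' {R : P → P} {Φ : ℝ → P → P} (hΦ : IsFlow R Φ) (hR : ContDiff ℝ 1 R) (p : P)
    (T : ℝ) : ∃ r > 0, ∃ C > 0, ∀ x ∈ ball p r, ∀ y ∈ ball p r, ∀ t ∈ Icc (-T) T,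
      dist (Φ t x) (Φ t y) ≤ C * dist x y ∧ dist (Φ t x) (Φ t p) < 1 := by
  obtain ⟨r1, hr1, C1, hC1, h1⟩ := hΦ.lip hR p T
  obtain ⟨r2, hr2, C2, hC2, h2⟩ := hΦ.reverse.lip hR.neg p T
  refine ⟨min r1 r2, lt_min hr1 hr2, max C1 C2, lt_max_of_lt_left hC1, fun x hx y hy t ht => ?_⟩
  have hx1 := ball_subset_ball (min_le_left r1 r2) hx
  have hx2 := ball_subset_ball (min_le_right r1 r2) hx
  have hy1 := ball_subset_ball (min_le_left r1 r2) hy
  have hy2 := ball_subset_ball (min_le_right r1 r2) hy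
  rcases le_total 0 t with h0 | h0
  · have := h1 x hx1 y hy1 t ⟨h0, ht.2⟩
    exact ⟨this.1.trans (mul_le_mul_of_nonneg_right (le_max_left _ _) dist_nonneg), this.2⟩
  · have := h2 x hx2 y hy2 (-t) ⟨by linarith, by linarith [ht.1]⟩
    simp only [neg_neg] at this
    exact ⟨this.1.trans (mul_le_mul_of_nonneg_right (le_max_right _ _) dist_nonneg), this.2⟩

theorem IsFlow.contx {R : P → P} {Φ : ℝ → P → P} (hΦ : IsFlow R Φ) (hR : ContDiff ℝ 1 R)
    (t : ℝ) : Continuous (Φ t) := by
  refine continuous_iff_continuousAt.mpr fun p => ?_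
  obtain ⟨r, hr, C, hC, h⟩ := hΦ.lip' hR p |t|
  rw [Metric.continuousAt_iff]
  intro ε hε
  refine ⟨min r (ε / C), lt_min hr (div_pos hε hC), fun x hx => ?_⟩
  have h1 := (h x (lt_of_lt_of_le hx (min_le_left _ _)) p (mem_ball_self hr) t
    ⟨neg_abs_le t, le_abs_self t⟩).1
  have h2 : dist x p < ε / C := lt_of_lt_of_le hx (min_le_right _ _)
  rw [lt_div_iff₀ hC] at h2
  linarith

end MP4c1a42
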