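import Pool.Agent.Work.MP_4c1a42_gt.Lip

set_option autoImplicit false

/-!
# The Reeb flow near a point where it is transverse to the circle action
-/

namespace MP4c1a42

open Set Metric Filter Topology
open scoped NNReal

section

variable {Γ : Type} [Group Γ] [MulAction Γ P] {α : P → P →L[ℝ] ℝ} {R : P → P} {Φ : ℝ → P → P}

/-- a linear form which is one on the Reeb vector at `p₀` -/
noncomputable def lin (X : ℝ × ℝ) : P →L[ℝ] ℝ :=
  (X.1 ^ 2 + X.2 ^ 2)⁻¹ • (X.1 • ((ContinuousLinearMap.fst ℝ ℝ ℝ).comp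
    (ContinuousLinearMap.fst ℝ (ℝ × ℝ) ℝ)) + X.2 • ((ContinuousLinearMap.snd ℝ ℝ ℝ).comp
    (ContinuousLinearMap.fst ℝ (ℝ × ℝ) ℝ)))

theorem lin_apply (X : ℝ × ℝ) (v : P) :
    lin X v = (X.1 ^ 2 + X.2 ^ 2)⁻¹ * (X.1 * v.1.1 + X.2 * v.1.2) := by
  simp [lin]
  ring

theorem lin_vert (X : ℝ × ℝ) (v : P) (t : ℝ) : lin X (v + t • e3) = lin X v := by
  simp [lin_apply, e3]

theorem hor_ne (h : Contact Γ α) (hR : Reeb α R) {p : P} (hp : fderiv ℝ (hh α) p ≠ 0) :
    (R p).1 ≠ 0 := by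
  intro h0
  apply hp
  rw [h.crit_iff hR]
  have h1 : R p = (R p).2 • e3 := by
    have := decomp (R p)
    rw [h0] at this
    simpa using this
  have h2 := (hR p).1
  rw [h1, map_smul, smul_eq_mul] at h2
  have h3 : hh α p * (R p).2 = 1 := by
    rw [hh, mul_comm]
    exact h2
  rw [h1, smul_smul, h3, one_smul]

theorem sq_pos {X : ℝ × ℝ} (hX : X ≠ 0) : 0 < X.1 ^ 2 + X.2 ^ 2 := by
  rcases eq_or_ne X.1 0 with h1 | h1
  · have h2 : X.2 ≠ 0 := fun h2 => hX (Prod.ext h1 h2)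
    positivity
  · positivity

theorem ker_zero (h : Contact Γ α) (hR : Reeb α R) {p : P} (hp : fderiv ℝ (hh α) p ≠ 0)
    {v : P} (h1 : lin (R p).1 v = 0) (h2 : fderiv ℝ (hh α) p v = 0) : v.1 = 0 := by
  set X := (R p).1 with hX
  have hXX := sq_pos (hor_ne h hR hp)
  rw [← hX] at hXX
  set a := fderiv ℝ (hh α) p e1 with ha
  set b := fderiv ℝ (hh α) p e2 with hb
  have h3 : fderiv ℝ (hh α) p e3 = 0 := by
    rw [h.fderiv_hh, ext_self]
  have hform : ∀ w : P, fderiv ℝ (hh α) p w = a * w.1.1 + b * w.1.2 := by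
    intro w
    conv_lhs => rw [decomp w]
    simp only [map_add, map_smul, smul_eq_mul, h3]
    ring
  have h4 := h.fderiv_hh_reeb hR p
  rw [hform] at h4 h2
  rw [lin_apply] at h1
  have h1' : X.1 * v.1.1 + X.2 * v.1.2 = 0 :=
    (mul_eq_zero.mp h1).resolve_left (inv_ne_zero hXX.ne')
  -- `(a, b)` is orthogonal to `X` and nonzero
  have hab : a ≠ 0 ∨ b ≠ 0 := by
    by_contra hcon
    push Not at hcon
    apply hp
    refine ContinuousLinearMap.ext fun w => ?_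
    rw [hform, hcon.1, hcon.2]
    simp
  have h4' : a * X.1 + b * X.2 = 0 := h4
  have k1 : v.1.1 * (a * X.2 - b * X.1) = 0 := by
    linear_combination X.2 * h2 - b * h1'
  have k2 : v.1.2 * (a * X.2 - b * X.1) = 0 := by
    linear_combination -X.1 * h2 + a * h1'
  have k3 : a * X.2 - b * X.1 ≠ 0 := by
    intro h0
    have i1 : a * (X.1 ^ 2 + X.2 ^ 2) = 0 := by linear_combination X.1 * h4' + X.2 * h0
    have i2 : b * (X.1 ^ 2 + X.2 ^ 2) = 0 := by linear_combination X.2 * h4' - X.1 * h0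
    rcases hab with h5 | h5
    · exact h5 ((mul_eq_zero.mp i1).resolve_right hXX.ne')
    · exact h5 ((mul_eq_zero.mp i2).resolve_right hXX.ne')
  exact Prod.ext ((mul_eq_zero.mp k1).resolve_right k3) ((mul_eq_zero.mp k2).resolve_right k3)

/-- local injectivity -/
theorem strict_inj {G : P → P} {L : P →L[ℝ] P} {p₀ : P} (hG : HasStrictFDerivAt G L p₀)
    (hL : ∀ v, L v = 0 → v = 0) : ∃ ρ > 0, ∀ a ∈ ball p₀ ρ, ∀ b ∈ ball p₀ ρ, G a = G b → a = b := by
  have hker : LinearMap.ker (L : P →ₗ[ℝ] P) = ⊥ := by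
    rw [LinearMap.ker_eq_bot']
    exact hL
  obtain ⟨K, hK0, hK⟩ := LinearMap.exists_antilipschitzWith (L : P →ₗ[ℝ] P) hker
  obtain ⟨k, hk⟩ : ∃ k : ℝ, k = K := ⟨_, rfl⟩
  have hk0 : 0 < k := by rw [hk]; exact_mod_cast hK0
  have hc : (0 : ℝ) < 1 / (2 * k) := by positivity
  have hev := hG.isLittleO.def hc
  rw [nhds_prod_eq] at hev
  obtain ⟨U, hU, hU'⟩ := Filter.mem_prod_self_iff.mp hev
  obtain ⟨r, hr, hball⟩ := Metric.mem_nhds_iff.mp hU
  refine ⟨r, hr, fun a ha b hb hab => ?_⟩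
  have key : ‖G a - G b - L (a - b)‖ ≤ 1 / (2 * k) * ‖a - b‖ :=
    @hU' (a, b) ⟨hball ha, hball hb⟩
  rw [hab, sub_self, zero_sub, norm_neg] at key
  have i3 : dist a b ≤ k * dist (L a) (L b) := by
    rw [hk]
    exact hK.le_mul_dist a b
  rw [dist_eq_norm, dist_eq_norm, ← map_sub] at i3
  have i4 : ‖a - b‖ ≤ k * (1 / (2 * k) * ‖a - b‖) := i3.trans (by gcongr)
  have i5 : k * (1 / (2 * k) * ‖a - b‖) = ‖a - b‖ / 2 := by
    field_simp
  rw [i5] at i4
  have i6 : ‖a - b‖ = 0 := le_antisymm (by linarith [norm_nonneg (a - b)]) (norm_nonneg _)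
  rwa [norm_eq_zero, sub_eq_zero] at i6

/-- `(lin, h)` are local coordinates on the quotient by the vertical translations -/
theorem loc_inj (h : Contact Γ α) (hR : Reeb α R) {p₀ : P} (hp : fderiv ℝ (hh α) p₀ ≠ 0) :
    ∃ ρ > 0, ∀ a ∈ ball p₀ ρ, ∀ b ∈ ball p₀ ρ, lin (R p₀).1 a = lin (R p₀).1 b →
      hh α a = hh α b → a.1 = b.1 := by
  have hGs : HasStrictFDerivAt (fun p : P => (((lin (R p₀).1 p, hh α p), p.2) : P))
      (((lin (R p₀).1).prod (fderiv ℝ (hh α) p₀)).prod (ContinuousLinearMap.snd ℝ (ℝ × ℝ) ℝ))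
      p₀ := by
    have h1 : HasStrictFDerivAt (hh α) (fderiv ℝ (hh α) p₀) p₀ :=
      (h.hh_smooth.contDiffAt.hasStrictFDerivAt (by norm_num))
    exact ((lin (R p₀).1).hasStrictFDerivAt.prodMk h1).prodMk
      (ContinuousLinearMap.snd ℝ (ℝ × ℝ) ℝ).hasStrictFDerivAt
  obtain ⟨r, hr, hinj⟩ := strict_inj hGs (by
    intro v hv
    simp only [ContinuousLinearMap.prod_apply, Prod.mk_eq_zero] at hv
    exact Prod.ext (ker_zero h hR hp hv.1.1 hv.1.2) hv.2)
  refine ⟨r / 3, by positivity, fun a ha b hb h1 h2 => ?_⟩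
  have hb'1 : (b + (a.2 - b.2) • e3).1 = b.1 := by simp [e3]
  have hb'2 : (b + (a.2 - b.2) • e3).2 = a.2 := by simp [e3]
  have hb'm : b + (a.2 - b.2) • e3 ∈ ball p₀ r := by
    rw [mem_ball] at ha hb ⊢
    have i1 : dist b.1 p₀.1 ≤ dist b p₀ := le_max_left _ _
    have i2 : dist a.2 p₀.2 ≤ dist a p₀ := le_max_right _ _
    have : dist (b + (a.2 - b.2) • e3) p₀ = max (dist (b + (a.2 - b.2) • e3).1 p₀.1)
      (dist (b + (a.2 - b.2) • e3).2 p₀.2) := rfl
    rw [this, hb'1, hb'2, max_lt_iff]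
    constructor <;> linarith
  have ham : a ∈ ball p₀ r := ball_subset_ball (by linarith) ha
  have := hinj a ham _ hb'm (by
    refine Prod.ext (Prod.ext ?_ ?_) ?_
    · change lin (R p₀).1 a = lin (R p₀).1 (b + (a.2 - b.2) • e3)
      rw [lin_vert, h1]
    · change hh α a = hh α (b + (a.2 - b.2) • e3)
      rw [h.hh_vert, h2]
    · exact hb'2.symm)
  rw [this, hb'1]

/-- the local lemma -/
theorem loc (h : Contact Γ α) (hR : Reeb α R) (hΦ : IsFlow R Φ) {p₀ : P}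
    (hp : fderiv ℝ (hh α) p₀ ≠ 0) :
    ∃ ρ > 0, ∃ η > 0, ∃ C > 0,
      (∀ p ∈ ball p₀ ρ, ∀ q ∈ ball p₀ ρ, hh α p = hh α q → ∃ s t : ℝ,
        |s| ≤ C * dist p q ∧ |t| ≤ C * dist p q ∧ q = Φ s p + t • e3) ∧
      (∀ p ∈ ball p₀ ρ, ∀ s t : ℝ, |s| ≤ η → Φ s p = p + t • e3 → s = 0) := by
  have hRs := h.reeb_smooth hR
  obtain ⟨ρ₁, hρ₁, hinj⟩ := loc_inj h hR hp
  set ℓ := lin (R p₀).1 with hℓ
  have hℓ1 : ℓ (R p₀) = 1 := by
    have := sq_pos (hor_ne h hR hp)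
    rw [hℓ, lin_apply, ← sq, ← sq, inv_mul_cancel₀ this.ne']
  -- bounds near `p₀`
  have hev1 : ∀ᶠ z in 𝓝 p₀, 1 / 2 < ℓ (R z) := by
    have : ContinuousAt (fun z => ℓ (R z)) p₀ := (ℓ.continuous.comp hRs.continuous).continuousAt
    exact continuousAt_const.eventually_lt this (by rw [hℓ1]; norm_num)
  have hev2 : ∀ᶠ z in 𝓝 p₀, ‖R z‖ < ‖R p₀‖ + 1 :=
    (hRs.continuous.norm.continuousAt).eventually_lt continuousAt_const (by linarith)
  obtain ⟨ρ₂, hρ₂, hb⟩ := Metric.eventually_nhds_iff.mp (hev1.and hev2)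
  set M := ‖R p₀‖ + 1 with hM
  have hM0 : 0 < M := by positivity
  set ρ' := min ρ₁ ρ₂ with hρ'
  have hρ'0 : 0 < ρ' := lt_min hρ₁ hρ₂
  obtain ⟨r, hr, C, hC, hlip⟩ := hΦ.lip' hRs p₀ 1
  have hev3 : ∀ᶠ s in 𝓝 (0 : ℝ), dist (Φ s p₀) p₀ < ρ' / 2 := by
    have : ContinuousAt (fun s => dist (Φ s p₀) p₀) 0 :=
      ((hΦ.cont p₀).dist continuous_const).continuousAt
    refine this.eventually_lt continuousAt_const ?_
    simp only [hΦ.zero, dist_self]
    positivity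
  obtain ⟨η₁, hη₁, hη⟩ := Metric.eventually_nhds_iff.mp hev3
  set η := min 1 (η₁ / 2) with hηd
  have hη0 : 0 < η := lt_min one_pos (by positivity)
  have hη1 : η ≤ 1 := min_le_left _ _
  have hη2 : η ≤ η₁ / 2 := min_le_right _ _
  set ρ := min (min r (ρ' / (2 * C))) (min ρ' (η / (4 * (‖ℓ‖ + 1)))) with hρ
  have hρ0 : 0 < ρ := by
    refine lt_min (lt_min hr (by positivity)) (lt_min hρ'0 (by positivity))
  have hρr : ρ ≤ r := (min_le_left _ _).trans (min_le_left _ _)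
  have hρC : ρ ≤ ρ' / (2 * C) := (min_le_left _ _).trans (min_le_right _ _)
  have hρρ : ρ ≤ ρ' := (min_le_right _ _).trans (min_le_left _ _)
  have hρη : ρ ≤ η / (4 * (‖ℓ‖ + 1)) := (min_le_right _ _).trans (min_le_right _ _)
  have hstay : ∀ p ∈ ball p₀ ρ, ∀ s ∈ Icc (-η) η, Φ s p ∈ ball p₀ ρ' := by
    intro p hp' s hs
    have h1 := (hlip p (ball_subset_ball hρr hp') p₀ (mem_ball_self hr) s
      ⟨by linarith [hs.1], by linarith [hs.2]⟩).1
    have h2 : dist (Φ s p₀) p₀ < ρ' / 2 := by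
      refine hη ?_
      rw [Real.dist_eq, sub_zero, abs_lt]
      constructor <;> linarith [hs.1, hs.2]
    have h3 : dist p p₀ < ρ' / (2 * C) := lt_of_lt_of_le hp' hρC
    rw [lt_div_iff₀ (by positivity)] at h3
    rw [mem_ball]
    have := dist_triangle (Φ s p) (Φ s p₀) p₀
    nlinarith
  have hder : ∀ p, ∀ s, HasDerivAt (fun s => ℓ (Φ s p)) (ℓ (R (Φ s p))) s := fun p s =>
    ℓ.hasFDerivAt.comp_hasDerivAt s (hΦ.der s p)
  have hmono : ∀ p ∈ ball p₀ ρ, ∀ s₁ ∈ Icc (-η) η, ∀ s₂ ∈ Icc (-η) η, s₁ ≤ s₂ →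
      1 / 2 * (s₂ - s₁) ≤ ℓ (Φ s₂ p) - ℓ (Φ s₁ p) := by
    intro p hp'
    refine (convex_Icc (-η) η).mul_sub_le_image_sub_of_le_deriv
      (f := fun s => ℓ (Φ s p)) (fun s _ => (hder p s).continuousAt.continuousWithinAt)
      (fun s _ => (hder p s).differentiableAt.differentiableWithinAt) fun s hs => ?_
    rw [(hder p s).deriv]
    have := hstay p hp' s (interior_subset hs)
    exact (hb (lt_of_lt_of_le this (min_le_right _ _))).1.le
  have hη' : -η ∈ Icc (-η) η := ⟨le_rfl, by linarith⟩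
  have hη'' : η ∈ Icc (-η) η := ⟨by linarith, le_rfl⟩
  have h0' : (0 : ℝ) ∈ Icc (-η) η := ⟨by linarith, hη0.le⟩
  refine ⟨ρ, hρ0, η, hη0, 2 * ‖ℓ‖ + 2 * ‖ℓ‖ * M + 1, by positivity, ?_, ?_⟩
  · intro p hp' q hq' hpq
    have hd : |ℓ q - ℓ p| ≤ ‖ℓ‖ * dist p q := by
      rw [← map_sub, dist_comm, dist_eq_norm]
      exact ℓ.le_opNorm _
    have hd2 : ‖ℓ‖ * dist p q ≤ η / 2 := by
      have h1 : dist p q < η / (4 * (‖ℓ‖ + 1)) + η / (4 * (‖ℓ‖ + 1)) := by
        refine lt_of_le_of_lt (dist_triangle p p₀ q) ?_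
        rw [dist_comm p₀ q]
        exact add_lt_add (lt_of_lt_of_le hp' hρη) (lt_of_lt_of_le hq' hρη)
      have h2 : η / (4 * (‖ℓ‖ + 1)) + η / (4 * (‖ℓ‖ + 1)) = η / 2 / (‖ℓ‖ + 1) := by
        field_simp
        norm_num
      rw [h2, lt_div_iff₀ (by positivity)] at h1
      nlinarith [norm_nonneg ℓ, dist_nonneg (x := p) (y := q)]
    have hu := hmono p hp' 0 h0' η hη'' hη0.le
    have hl := hmono p hp' (-η) hη' 0 h0' (by linarith)
    simp only [hΦ.zero] at hu hl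
    rw [abs_le] at hd
    obtain ⟨s, hs, hsq⟩ : ℓ q ∈ (fun s => ℓ (Φ s p)) '' Icc (-η) η := by
      refine intermediate_value_Icc (by linarith)
        (fun s _ => (hder p s).continuousAt.continuousWithinAt) ⟨?_, ?_⟩
      · change ℓ (Φ (-η) p) ≤ ℓ q
        linarith
      · change ℓ q ≤ ℓ (Φ η p)
        linarith
    have hsq' : ℓ (Φ s p) = ℓ q := hsq
    have hs' : |s| ≤ 2 * ‖ℓ‖ * dist p q := by
      rw [abs_le]
      rcases le_total 0 s with h1 | h1
      · have := hmono p hp' 0 h0' s hs h1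
        simp only [hΦ.zero, hsq'] at this
        constructor
        · linarith [mul_nonneg (norm_nonneg ℓ) (dist_nonneg (x := p) (y := q))]
        · linarith
      · have := hmono p hp' s hs 0 h0' h1
        simp only [hΦ.zero, hsq'] at this
        constructor
        · linarith
        · linarith [mul_nonneg (norm_nonneg ℓ) (dist_nonneg (x := p) (y := q))]
    have h1 : (Φ s p).1 = q.1 := by
      refine hinj _ (ball_subset_ball (min_le_left _ _) (hstay p hp' s hs)) q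
        (ball_subset_ball (hρρ.trans (min_le_left _ _)) hq') hsq' ?_
      rw [hΦ.hh h hR, hpq]
    have hmv : ‖Φ s p - p‖ ≤ M * |s| := by
      have := (convex_Icc (-η) η).norm_image_sub_le_of_norm_hasDerivWithin_le
        (f := fun s => Φ s p) (f' := fun s => R (Φ s p)) (C := M)
        (fun s _ => (hΦ.der s p).hasDerivWithinAt)
        (fun s hs => (hb (lt_of_lt_of_le (hstay p hp' s hs) (min_le_right _ _))).2.le) h0' hs
      simpa [hΦ.zero] using this
    have hMs : M * |s| ≤ M * (2 * ‖ℓ‖ * dist p q) := mul_le_mul_of_nonneg_left hs' hM0.le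
    refine ⟨s, q.2 - (Φ s p).2, ?_, ?_, ?_⟩
    · refine hs'.trans ?_
      have : 0 ≤ (2 * ‖ℓ‖ * M + 1) * dist p q := by positivity
      linarith
    · have i1 : |q.2 - p.2| ≤ dist p q := by
        rw [dist_comm]
        exact le_max_right _ _
      have i2 : |(Φ s p).2 - p.2| ≤ ‖Φ s p - p‖ := by
        have : ‖(Φ s p - p).2‖ ≤ ‖Φ s p - p‖ := norm_snd_le _
        simpa using this
      have i3 : |q.2 - (Φ s p).2| ≤ |q.2 - p.2| + |(Φ s p).2 - p.2| := by
        have := abs_sub (q.2 - p.2) ((Φ s p).2 - p.2)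
        simpa using this
      have : 0 ≤ 2 * ‖ℓ‖ * dist p q := by positivity
      linarith
    · refine Prod.ext ?_ ?_
      · simp [e3, h1]
      · simp [e3]
  · intro p hp' s t hs hst
    have hs' : s ∈ Icc (-η) η := abs_le.mp hs
    have h1 : ℓ (Φ s p) = ℓ p := by
      rw [hst, hℓ, lin_vert]
    rcases le_total 0 s with h2 | h2
    · have := hmono p hp' 0 h0' s hs' h2
      simp only [hΦ.zero, h1] at this
      linarith
    · have := hmono p hp' s hs' 0 h0' h2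
      simp only [hΦ.zero, h1] at this
      linarith

end

end MP4c1a42
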