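import Pool.Agent.Work.MP_4c1a42_gt.Crit

set_option autoImplicit false

/-!
# Continuation of a closed orbit with an irrational vertical shift
-/

namespace MP4c1a42

open Set Metric Filter Topology Asymptotics

section

variable {Γ : Type} [Group Γ] [MulAction Γ P] {α : P → P →L[ℝ] ℝ} {R : P → P} {Φ : ℝ → P → P}

theorem Deck.cont (hD : Deck Γ) (g : Γ) : Continuous fun p : P => g • p :=
  (hD.smooth g).continuous

theorem noncrit_open (h : Contact Γ α) : IsOpen {p | fderiv ℝ (hh α) p ≠ 0} :=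
  isOpen_ne_fun (h.hh_smooth.continuous_fderiv (by norm_num)) continuous_const

/-- nearby points are on nearby closed orbits (up to the vertical shift) -/
theorem branch (h : Contact Γ α) (hD : Deck Γ) (hR : Reeb α R) (hΦ : IsFlow R Φ) {q₁ : P}
    (hq : fderiv ℝ (hh α) q₁ ≠ 0) {T δ : ℝ} {g : Γ} (hg : Φ T q₁ = g • q₁ + δ • e3) :
    ∃ S D : P → ℝ, S =O[𝓝 q₁] (fun q => q - q₁) ∧ D =O[𝓝 q₁] (fun q => q - q₁) ∧
      ∀ᶠ q in 𝓝 q₁, Φ (T + S q) q = g • q + (δ + D q) • e3 := by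
  have hRs := h.reeb_smooth hR
  obtain ⟨ρ, hρ, η, hη, C, hC, hloc, -⟩ := loc h hR hΦ (h.fderiv_hh_deck hD g hq)
  set b : P → P := fun q => Φ T q + (-δ) • e3 with hb
  have hb1 : b q₁ = g • q₁ := by
    rw [hb]
    change Φ T q₁ + (-δ) • e3 = _
    rw [hg, neg_smul]
    abel
  have hbc : Continuous b := (hΦ.contx hRs T).add continuous_const
  have hex : ∀ q, ∃ st : ℝ × ℝ, (g • q ∈ ball (g • q₁) ρ ∧ b q ∈ ball (g • q₁) ρ) →
      (|st.1| ≤ C * dist (g • q) (b q) ∧ |st.2| ≤ C * dist (g • q) (b q) ∧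
        b q = Φ st.1 (g • q) + st.2 • e3) := by
    intro q
    by_cases hq' : g • q ∈ ball (g • q₁) ρ ∧ b q ∈ ball (g • q₁) ρ
    · obtain ⟨s, t, h1, h2, h3⟩ := hloc _ hq'.1 _ hq'.2 (by
        rw [h.hh_inv hD, hb, h.hh_vert, hΦ.hh h hR])
      exact ⟨(s, t), fun _ => ⟨h1, h2, h3⟩⟩
    · exact ⟨(0, 0), fun h => absurd h hq'⟩
  choose st hst using hex
  have hev1 : ∀ᶠ q in 𝓝 q₁, g • q ∈ ball (g • q₁) ρ :=
    (hD.cont g).continuousAt.eventually_mem (ball_mem_nhds _ hρ)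
  have hev2 : ∀ᶠ q in 𝓝 q₁, b q ∈ ball (g • q₁) ρ := by
    have := hbc.continuousAt.eventually_mem (x := q₁) (s := ball (g • q₁) ρ) (by
      rw [hb1]
      exact ball_mem_nhds _ hρ)
    exact this
  -- Lipschitz estimate
  have hO : (fun q => g • q - b q) =O[𝓝 q₁] fun q => q - q₁ := by
    have e1 : (fun q : P => g • q - g • q₁) =O[𝓝 q₁] fun q => q - q₁ :=
      (hD.diff g q₁).hasFDerivAt.isBigO_sub
    have e2 : (fun q : P => Φ T q - Φ T q₁) =O[𝓝 q₁] fun q => q - q₁ := by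
      obtain ⟨r, hr, C', hC', hlip⟩ := hΦ.lip' hRs q₁ |T|
      refine IsBigO.of_bound C' ?_
      filter_upwards [ball_mem_nhds q₁ hr] with q hq'
      have := (hlip q hq' q₁ (mem_ball_self hr) T ⟨neg_abs_le T, le_abs_self T⟩).1
      rwa [dist_eq_norm, dist_eq_norm] at this
    refine (e1.sub e2).congr_left fun q => ?_
    rw [hb, hg]
    change _ = g • q - (Φ T q + (-δ) • e3)
    rw [neg_smul]
    abel
  have hOC : ∀ f : P → ℝ, (∀ᶠ q in 𝓝 q₁, |f q| ≤ C * dist (g • q) (b q)) →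
      f =O[𝓝 q₁] fun q => q - q₁ := by
    intro f hf
    refine IsBigO.trans (IsBigO.of_bound C ?_) hO
    filter_upwards [hf] with q hq'
    rwa [Real.norm_eq_abs, ← dist_eq_norm]
  refine ⟨fun q => -(st q).1, fun q => (st q).2, ?_, ?_, ?_⟩
  · refine hOC _ ?_
    filter_upwards [hev1, hev2] with q h1 h2
    rw [abs_neg]
    exact (hst q ⟨h1, h2⟩).1
  · refine hOC _ ?_
    filter_upwards [hev1, hev2] with q h1 h2
    exact (hst q ⟨h1, h2⟩).2.1
  · filter_upwards [hev1, hev2] with q h1 h2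
    have h3 := (hst q ⟨h1, h2⟩).2.2
    have h4 : Φ T q = Φ (st q).1 (g • q) + (δ + (st q).2) • e3 := by
      have : Φ T q = b q + δ • e3 := by
        rw [hb]
        change _ = Φ T q + (-δ) • e3 + δ • e3
        rw [neg_smul]
        abel
      rw [this, h3, add_smul]
      abel
    rw [add_comm T, hΦ.add hRs, h4, hΦ.vert h hR, hΦ.neg hRs]

/-- the set of points with a given vertical shift and return time is open near noncritical points -/
theorem open_at (h : Contact Γ α) (hD : Deck Γ) (hR : Reeb α R) (hΦ : IsFlow R Φ)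
    (hfin : ∀ T, (orbits Γ R T).Finite) {q₀ : P} (hq₀ : fderiv ℝ (hh α) q₀ ≠ 0) {T₀ δ : ℝ} {g : Γ}
    (hT₀ : 0 < T₀) (hg : Φ T₀ q₀ = g • q₀ + δ • e3) :
    ∀ᶠ q in 𝓝 q₀, Φ T₀ q = g • q + δ • e3 := by
  have hRs := h.reeb_smooth hR
  obtain ⟨S, D, hS, hD', hSD⟩ := branch h hD hR hΦ hq₀ hg
  obtain ⟨ρ, hρ, η, hη, C, hC, -, huniq⟩ := loc h hR hΦ (h.fderiv_hh_deck hD g hq₀)
  have hto : ∀ q₁ : P, Tendsto (fun q : P => q - q₁) (𝓝 q₁) (𝓝 0) := by
    intro q₁
    have : Continuous fun q' : P => q' - q₁ := continuous_id.sub continuous_const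
    have h1 := this.tendsto q₁
    rwa [sub_self] at h1
  have hzero : ∀ (q₁ : P) (f : P → ℝ), f =O[𝓝 q₁] (fun q => q - q₁) → f q₁ = 0 := by
    intro q₁ f hf
    obtain ⟨c, hc⟩ := hf.bound
    have := hc.self_of_nhds
    rw [sub_self, norm_zero, mul_zero, norm_le_zero_iff] at this
    exact this
  set κ : ℝ := min (η / 4) (T₀ / 2) with hκ
  have hκ0 : 0 < κ := by positivity
  have hev1 : ∀ᶠ q in 𝓝 q₀, |S q| < κ := by
    have := (hS.trans_tendsto (hto q₀)).eventually (ball_mem_nhds 0 hκ0)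
    filter_upwards [this] with q hq
    rwa [Real.dist_eq, sub_zero] at hq
  have hev2 : ∀ᶠ q in 𝓝 q₀, g • q ∈ ball (g • q₀) ρ :=
    (hD.cont g).continuousAt.eventually_mem (ball_mem_nhds _ hρ)
  have hev3 : ∀ᶠ q in 𝓝 q₀, fderiv ℝ (hh α) q ≠ 0 := (noncrit_open h).mem_nhds hq₀
  obtain ⟨r, hr, hball⟩ := Metric.eventually_nhds_iff.mp ((hSD.and hev1).and (hev2.and hev3))
  -- the local branch is Lipschitz
  have hlip : ∀ q₁ ∈ ball q₀ r, (fun q => S q - S q₁) =O[𝓝 q₁] (fun q => q - q₁) ∧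
      (fun q => D q - D q₁) =O[𝓝 q₁] (fun q => q - q₁) := by
    intro q₁ hq₁
    obtain ⟨⟨a1, a2⟩, a3, a4⟩ := hball hq₁
    obtain ⟨S₁, D₁, hS₁, hD₁, hSD₁⟩ := branch h hD hR hΦ a4 a1
    have hev4 : ∀ᶠ q in 𝓝 q₁, |S₁ q| < η / 4 := by
      have := (hS₁.trans_tendsto (hto q₁)).eventually (ball_mem_nhds 0 (by positivity : 0 < η / 4))
      filter_upwards [this] with q hq
      rwa [Real.dist_eq, sub_zero] at hq
    have hev5 : ∀ᶠ q in 𝓝 q₁, q ∈ ball q₀ r := isOpen_ball.mem_nhds hq₁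
    have key : ∀ᶠ q in 𝓝 q₁, S₁ q = S q - S q₁ ∧ D₁ q = D q - D q₁ := by
      filter_upwards [hSD₁, hev4, hev5] with q b1 b2 b3
      obtain ⟨⟨c1, c2⟩, c3, c4⟩ := hball b3
      set σ : ℝ := S q₁ + S₁ q - S q with hσ
      have d1 : T₀ + S q₁ + S₁ q = σ + (T₀ + S q) := by rw [hσ]; ring
      rw [d1, hΦ.add hRs, c1, hΦ.vert h hR] at b1
      have d2 : Φ σ (g • q) = g • q + (D q₁ + D₁ q - D q) • e3 := by
        have : Φ σ (g • q) + (δ + D q) • e3 =
            (g • q + (D q₁ + D₁ q - D q) • e3) + (δ + D q) • e3 := by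
          rw [b1, add_assoc (g • q), ← add_smul]
          congr 2
          ring
        exact add_right_cancel this
      have d3 : |σ| ≤ η := by
        have k1 : |S q₁| < η / 4 := lt_of_lt_of_le a2 (min_le_left _ _)
        have k2 : |S q| < η / 4 := lt_of_lt_of_le c2 (min_le_left _ _)
        rw [abs_lt] at k1 k2 b2
        rw [abs_le]
        constructor <;> linarith [k1.1, k1.2, k2.1, k2.2, b2.1, b2.2]
      have d4 := huniq (g • q) c3 σ _ d3 d2
      rw [d4, hΦ.zero] at d2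
      have d5 : (D q₁ + D₁ q - D q) • e3 = 0 := by
        have := d2.symm
        rwa [add_eq_left] at this
      have d6 : D q₁ + D₁ q - D q = 0 := by
        have := congrArg (fun v : P => v.2) d5
        simpa [e3] using this
      constructor <;> linarith
    refine ⟨hS₁.congr' ?_ EventuallyEq.rfl, hD₁.congr' ?_ EventuallyEq.rfl⟩
    · filter_upwards [key] with q hq using hq.1
    · filter_upwards [key] with q hq using hq.2
  -- the vertical shift is constant
  have hirr : ∀ q ∈ ball q₀ r, Irrational (δ + D q) := by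
    intro q hq
    obtain ⟨⟨a1, a2⟩, a3, a4⟩ := hball hq
    by_contra hcon
    have hpos : 0 < T₀ + S q := by
      have := lt_of_lt_of_le a2 (min_le_right _ _)
      rw [abs_lt] at this
      linarith
    obtain ⟨T', hT'⟩ := resonance h hD hR hΦ a4 hpos a1 hcon
    exact hT' (hfin T')
  have hDcont : ContinuousOn (fun q => δ + D q) (ball q₀ r) := by
    intro q₁ hq₁
    refine ContinuousAt.continuousWithinAt ?_
    have h1 : Tendsto (fun q => D q - D q₁) (𝓝 q₁) (𝓝 0) :=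
      ((hlip q₁ hq₁).2).trans_tendsto (hto q₁)
    have h2 := h1.add_const (δ + D q₁)
    rw [zero_add] at h2
    refine h2.congr fun q => ?_
    ring
  have hconn : IsPreconnected (ball q₀ r) := (convex_ball q₀ r).isPreconnected
  have hDconst : ∀ q ∈ ball q₀ r, δ + D q = δ := by
    intro q hq
    have h0 : δ + D q₀ = δ := by rw [hzero q₀ D hD', add_zero]
    by_contra hne
    have hne' : δ + D q ≠ δ + D q₀ := by
      rw [h0]
      exact hne
    have hmem : q₀ ∈ ball q₀ r := mem_ball_self hr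
    rcases lt_or_gt_of_ne hne' with hlt | hlt
    · obtain ⟨c, hc1, hc2⟩ := exists_rat_btwn hlt
      obtain ⟨q', hq', hcq⟩ := hconn.intermediate_value hq hmem hDcont ⟨hc1.le, hc2.le⟩
      exact hirr q' hq' ⟨c, hcq.symm⟩
    · obtain ⟨c, hc1, hc2⟩ := exists_rat_btwn hlt
      obtain ⟨q', hq', hcq⟩ := hconn.intermediate_value hmem hq hDcont ⟨hc1.le, hc2.le⟩
      exact hirr q' hq' ⟨c, hcq.symm⟩
  -- the period is constant
  have hSder : ∀ q₁ ∈ ball q₀ r, HasFDerivAt S (0 : P →L[ℝ] ℝ) q₁ := by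
    intro q₁ hq₁
    obtain ⟨⟨a1, a2⟩, a3, a4⟩ := hball hq₁
    have hpos : 0 ≤ T₀ + S q₁ := by
      have := lt_of_lt_of_le a2 (min_le_right _ _)
      rw [abs_lt] at this
      linarith
    rw [hDconst q₁ hq₁] at a1
    have h1 := period h hD hR hΦ hpos a1 (hlip q₁ hq₁).1 (by
      filter_upwards [isOpen_ball.mem_nhds hq₁] with q hq
      have h2 := (hball hq).1.1
      rw [hDconst q hq] at h2
      have h3 : T₀ + S q₁ + (S q - S q₁) = T₀ + S q := by ring
      rw [h3, h2])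
    rw [hasFDerivAt_iff_isLittleO]
    refine h1.congr_left fun q => ?_
    simp
  have hSconst : ∀ q ∈ ball q₀ r, S q = 0 := by
    intro q hq
    rw [← hzero q₀ S hS]
    exact (convex_ball q₀ r).is_const_of_fderivWithin_eq_zero
      (fun q₁ hq₁ => (hSder q₁ hq₁).differentiableAt.differentiableWithinAt)
      (fun q₁ hq₁ => by
        rw [fderivWithin_of_isOpen isOpen_ball hq₁]
        exact (hSder q₁ hq₁).fderiv) hq (mem_ball_self hr)
  filter_upwards [ball_mem_nhds q₀ hr] with q hq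
  have h1 := (hball hq).1.1
  rw [hDconst q hq, hSconst q hq, add_zero] at h1
  exact h1

end

end MP4c1a42
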