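import Pool.Agent.Work.MP_4c1a42_gt.Transport

set_option autoImplicit false

/-!
# Resonant orbits
-/

namespace MP4c1a42

open Set Metric Filter Topology

section

variable {Γ : Type} [Group Γ] [MulAction Γ P] {α : P → P →L[ℝ] ℝ} {R : P → P} {Φ : ℝ → P → P}

theorem Deck.countable (hD : Deck Γ) : Countable Γ := by
  have h1 : (univ : Set Γ) ⊆ ⋃ n : ℕ, {g : Γ | ∃ p ∈ ({0} : Set P), g • p ∈ closedBall (0 : P) n} := by
    intro g _
    obtain ⟨n, hn⟩ := exists_nat_ge (dist (g • (0 : P)) 0)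
    exact mem_iUnion.mpr ⟨n, 0, rfl, hn⟩
  have h2 : (univ : Set Γ).Countable :=
    (countable_iUnion fun n : ℕ => (hD.proper {0} (closedBall 0 n) isCompact_singleton
      (isCompact_closedBall _ _)).countable).mono h1
  exact countable_univ_iff.mp h2

/-- integer translations -/
theorem Deck.shift (hD : Deck Γ) (m : ℤ) : ∃ g : Γ, ∀ p : P, g • p = p + (m : ℝ) • e3 := by
  obtain ⟨τ, hτ⟩ := hD.unit
  have hτ' : ∀ p : P, τ⁻¹ • p = p + (-1 : ℝ) • e3 := by
    intro p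
    rw [inv_smul_eq_iff, hτ]
    simp
  refine ⟨τ ^ m, ?_⟩
  induction m using Int.induction_on with
  | zero => simp
  | succ n ih =>
    intro p
    rw [zpow_add, zpow_one, mul_smul, hτ, ih]
    push_cast
    rw [add_smul, one_smul]
    abel
  | pred n ih =>
    intro p
    rw [zpow_sub, zpow_one, mul_smul, hτ', ih]
    push_cast
    rw [sub_smul, one_smul, neg_one_smul]
    abel

/-- the orbit through `p` in the quotient -/
def orb (Γ : Type) [Group Γ] [MulAction Γ P] (Φ : ℝ → P → P) (p : P) : Set P :=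
  {q | ∃ (g : Γ) (t : ℝ), q = g • Φ t p}

theorem self_orb (hΦ : IsFlow R Φ) (p : P) : p ∈ orb Γ Φ p :=
  ⟨1, 0, by rw [hΦ.zero, one_smul]⟩

theorem mem_orbits (hΦ : IsFlow R Φ) {p : P} {t T : ℝ} (ht : 0 < t) (hT : t ≤ T) {g : Γ}
    (h : Φ t p = g • p) : orb Γ Φ p ∈ orbits Γ R T := by
  refine ⟨fun t => Φ t p, fun t => hΦ.der t p, ⟨t, ht, hT, g, ?_⟩, rfl⟩
  change Φ t p = g • Φ 0 p
  rw [h, hΦ.zero]

theorem iter (h : Contact Γ α) (hD : Deck Γ) (hR : Reeb α R) (hΦ : IsFlow R Φ) {x : P} {T δ : ℝ}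
    {g : Γ} (hx : Φ T x = g • x + δ • e3) (n : ℕ) :
    Φ (n * T) x = g ^ n • x + (n * δ) • e3 := by
  have hRs := h.reeb_smooth hR
  induction n with
  | zero => simp [hΦ.zero]
  | succ n ih =>
    have e1 : ((n + 1 : ℕ) : ℝ) * T = T + n * T := by push_cast; ring
    rw [e1, hΦ.add hRs, ih, hΦ.vert h hR, hΦ.deck h hD hR, hx, hD.vert, pow_succ, mul_smul (g ^ n) g x,
      add_assoc, ← add_smul]
    congr 2
    push_cast
    ring

/-- the times at which the orbit of `x` meets a translate of a vertical line are discrete -/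
theorem times_countable (h : Contact Γ α) (hD : Deck Γ) (hR : Reeb α R) (hΦ : IsFlow R Φ) {x : P}
    (hx : fderiv ℝ (hh α) x ≠ 0) (g : Γ) (u₀ : ℝ) :
    {u : ℝ | ∃ t, x + u • e3 = g • Φ t (x + u₀ • e3)}.Countable := by
  have hRs := h.reeb_smooth hR
  obtain ⟨ρ, hρ, η, hη, C, hC, -, huniq⟩ := loc h hR hΦ hx
  set A : Set ℝ := {t | ∃ u : ℝ, x + u • e3 = g • Φ t (x + u₀ • e3)} with hA
  have hsep : ∀ t₁ ∈ A, ∀ t₂ ∈ A, |t₁ - t₂| ≤ η → t₁ = t₂ := by
    rintro t₁ ⟨u₁, h₁⟩ t₂ ⟨u₂, h₂⟩ hle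
    have e1 : g • Φ t₁ (x + u₀ • e3) = g • (Φ t₂ (x + u₀ • e3) + (u₁ - u₂) • e3) := by
      rw [hD.vert, ← h₁, ← h₂, add_assoc, ← add_smul]
      congr 2
      ring
    have e2 : Φ t₁ (x + u₀ • e3) = Φ t₂ (x + u₀ • e3) + (u₁ - u₂) • e3 := smul_left_cancel g e1
    rw [hΦ.vert h hR, hΦ.vert h hR] at e2
    have e3' : Φ t₁ x = Φ t₂ x + (u₁ - u₂) • e3 := by
      have : Φ t₁ x + u₀ • e3 = (Φ t₂ x + (u₁ - u₂) • e3) + u₀ • e3 := by rw [e2]; abel
      exact add_right_cancel this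
    have e4 : Φ (t₁ - t₂) x = x + (u₁ - u₂) • e3 := by
      have : Φ (-t₂) (Φ t₁ x) = Φ (-t₂) (Φ t₂ x + (u₁ - u₂) • e3) := by rw [e3']
      rw [hΦ.vert h hR, hΦ.neg hRs, ← hΦ.add hRs] at this
      rw [← this]
      congr 1
      ring
    have := huniq x (mem_ball_self hρ) (t₁ - t₂) (u₁ - u₂) hle e4
    linarith
  have hAc : A.Countable := by
    refine countable_of_injective_of_countable_image (f := fun t => ⌊t / η⌋) ?_
      (to_countable _)
    intro t₁ h₁ t₂ h₂ heq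
    refine hsep t₁ h₁ t₂ h₂ ?_
    have h3 := Int.abs_sub_lt_one_of_floor_eq_floor heq
    rw [← sub_div, abs_div, abs_of_pos hη, div_lt_one hη] at h3
    exact h3.le
  refine (hAc.image fun t => (g • Φ t (x + u₀ • e3)).2 - x.2).mono ?_
  rintro u ⟨t, ht⟩
  refine ⟨t, ⟨u, ht⟩, ?_⟩
  change (g • Φ t (x + u₀ • e3)).2 - x.2 = u
  rw [← ht]
  simp [e3]

/-- a rational vertical shift gives infinitely many closed orbits -/
theorem resonance (h : Contact Γ α) (hD : Deck Γ) (hR : Reeb α R) (hΦ : IsFlow R Φ) {x : P}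
    (hx : fderiv ℝ (hh α) x ≠ 0) {T δ : ℝ} (hT : 0 < T) {g : Γ} (hg : Φ T x = g • x + δ • e3)
    (hδ : ¬ Irrational δ) : ∃ T', (orbits Γ R T').Infinite := by
  have hcG := hD.countable
  rw [irrational_iff_ne_rational] at hδ
  push Not at hδ
  obtain ⟨a, b, hb, hab⟩ := hδ
  -- make the denominator positive
  obtain ⟨n, m, hn, hnm⟩ : ∃ (n : ℕ) (m : ℤ), 0 < n ∧ (n : ℝ) * δ = m := by
    refine ⟨b.natAbs, a * b.sign, Int.natAbs_pos.mpr hb, ?_⟩
    have h1 : ((b.natAbs : ℕ) : ℝ) = b * b.sign := by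
      have : |b| = b * b.sign := by
        rw [Int.mul_sign_self, Int.natCast_natAbs]
      rw [Nat.cast_natAbs, this]
      push_cast
      ring
    have hb' : (b : ℝ) ≠ 0 := by exact_mod_cast hb
    rw [h1, hab]
    push_cast
    field_simp
  obtain ⟨τ, hτ⟩ := hD.shift m
  refine ⟨n * T, fun hfin => ?_⟩
  have hmem : ∀ u : ℝ, orb Γ Φ (x + u • e3) ∈ orbits Γ R (n * T) := by
    intro u
    refine mem_orbits hΦ (t := n * T) (by positivity) le_rfl (g := τ * g ^ n) ?_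
    rw [hΦ.vert h hR, iter h hD hR hΦ hg, mul_smul τ (g ^ n), hτ, hD.vert, hnm]
    abel
  have hfib : ∀ u₀ : ℝ, {u : ℝ | orb Γ Φ (x + u • e3) = orb Γ Φ (x + u₀ • e3)}.Countable := by
    intro u₀
    refine (countable_iUnion fun g : Γ => times_countable h hD hR hΦ hx g u₀).mono ?_
    intro u hu
    have : x + u • e3 ∈ orb Γ Φ (x + u₀ • e3) := hu ▸ self_orb hΦ _
    obtain ⟨g, t, hgt⟩ := this
    exact mem_iUnion.mpr ⟨g, t, hgt⟩
  have huniv : (univ : Set ℝ) ⊆ ⋃ O ∈ orbits Γ R (n * T), {u : ℝ | orb Γ Φ (x + u • e3) = O} := by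
    intro u _
    exact mem_iUnion₂.mpr ⟨_, hmem u, rfl⟩
  have hcount : (⋃ O ∈ orbits Γ R (n * T), {u : ℝ | orb Γ Φ (x + u • e3) = O}).Countable := by
    refine hfin.countable.biUnion fun O _ => ?_
    rcases eq_empty_or_nonempty {u : ℝ | orb Γ Φ (x + u • e3) = O} with h0 | ⟨u₀, hu₀⟩
    · rw [h0]
      exact countable_empty
    · have : {u : ℝ | orb Γ Φ (x + u • e3) = O} =
          {u : ℝ | orb Γ Φ (x + u • e3) = orb Γ Φ (x + u₀ • e3)} := by
        have hu₁ : orb Γ Φ (x + u₀ • e3) = O := hu₀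
        rw [hu₁]
      rw [this]
      exact hfib u₀
  exact Cardinal.not_countable_real (hcount.mono huniv)

end

end MP4c1a42
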