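import Pool.Agent.Work.MP_4c1a42_gt.Defs

set_option autoImplicit false

/-!
# The hypotheses are satisfiable: the standard contact form on the 3-torus

Not used by any hand-in.
-/

namespace MP4c1a42

open Set Real

/-- the translation group -/
abbrev Z3 : Type := Multiplicative ((ℤ × ℤ) × ℤ)

/-- the lattice vector -/
def vec (g : Z3) : P := (((g.toAdd.1.1 : ℤ), (g.toAdd.1.2 : ℤ)), (g.toAdd.2 : ℤ))

noncomputable instance instZ3 : MulAction Z3 P where
  smul g p := vec g + p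
  one_smul p := by
    change vec 1 + p = p
    simp [vec]
  mul_smul g g' p := by
    change vec (g * g') + p = vec g + (vec g' + p)
    rw [← add_assoc]
    congr 1
    simp [vec]

theorem smul_def' (g : Z3) (p : P) : g • p = vec g + p := rfl

theorem seifert_Z3 : Seifert Z3 := by
  refine ⟨fun g => ?_, fun g => Or.inl fun p s => ?_, ?_, fun K L hK hL => ?_, ?_⟩
  · simp only [smul_def']
    exact contDiff_const.add contDiff_id
  · simp only [smul_def']
    abel
  · refine ⟨Multiplicative.ofAdd ((0, 0), 1), fun p => ?_⟩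
    rw [smul_def', add_comm]
    congr 1
    simp [vec, e3]
  · obtain ⟨A, hA⟩ := hK.isBounded.exists_norm_le
    obtain ⟨B, hB⟩ := hL.isBounded.exists_norm_le
    obtain ⟨N, hN⟩ := exists_nat_ge (A + B)
    have hfin : (Icc (-(N : ℤ)) N ×ˢ Icc (-(N : ℤ)) N ×ˢ Icc (-(N : ℤ)) N).Finite :=
      (finite_Icc _ _).prod ((finite_Icc _ _).prod (finite_Icc _ _))
    refine Finite.of_finite_image (f := fun g : Z3 => (g.toAdd.1.1, g.toAdd.1.2, g.toAdd.2))
      (hfin.subset ?_) ?_
    · rintro _ ⟨g, ⟨p, hp, hg⟩, rfl⟩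
      have h1 : ‖vec g‖ ≤ N := by
        have h2 : vec g = g • p - p := by rw [smul_def']; abel
        rw [h2]
        refine (norm_sub_le _ _).trans ?_
        linarith [hA p hp, hB _ hg]
      have h3 : ∀ z : ℤ, |(z : ℝ)| ≤ N → z ∈ Icc (-(N : ℤ)) N := by
        intro z hz
        have := abs_le.mp hz
        exact ⟨by exact_mod_cast this.1, by exact_mod_cast this.2⟩
      have h4 : ‖(vec g).1‖ ≤ N := (norm_fst_le _).trans h1
      have h5 : ‖(vec g).2‖ ≤ N := (norm_snd_le _).trans h1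
      have h6 : ‖(vec g).1.1‖ ≤ N := (norm_fst_le _).trans h4
      have h7 : ‖(vec g).1.2‖ ≤ N := (norm_snd_le _).trans h4
      exact ⟨h3 _ h6, h3 _ h7, h3 _ h5⟩
    · intro g _ g' _ h
      simp only [Prod.mk.injEq] at h
      exact Multiplicative.toAdd.injective (Prod.ext (Prod.ext h.1 h.2.1) h.2.2)
  · refine ⟨Icc ((0, 0), 0) ((1, 1), 1), isCompact_Icc, fun p => ?_⟩
    refine ⟨Multiplicative.ofAdd ((-⌊p.1.1⌋, -⌊p.1.2⌋), -⌊p.2⌋), ?_⟩
    rw [smul_def']
    have h1 := Int.floor_le p.1.1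
    have h2 := Int.floor_le p.1.2
    have h3 := Int.floor_le p.2
    have h4 := Int.lt_floor_add_one p.1.1
    have h5 := Int.lt_floor_add_one p.1.2
    have h6 := Int.lt_floor_add_one p.2
    refine ⟨⟨⟨?_, ?_⟩, ?_⟩, ⟨⟨?_, ?_⟩, ?_⟩⟩ <;> simp [vec] <;> linarith

/-- `dx`, `dy`, `dz` -/
noncomputable def dy : P →L[ℝ] ℝ := (ContinuousLinearMap.snd ℝ ℝ ℝ).comp (ContinuousLinearMap.fst ℝ (ℝ × ℝ) ℝ)

/-- `dz` -/
noncomputable def dz : P →L[ℝ] ℝ := ContinuousLinearMap.snd ℝ (ℝ × ℝ) ℝ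

/-- the standard contact form `sin(2 π x) dy + cos(2 π x) dz` -/
noncomputable def std (p : P) : P →L[ℝ] ℝ :=
  sin (2 * π * p.1.1) • dy + cos (2 * π * p.1.1) • dz

theorem std_fderiv (p v : P) : fderiv ℝ std p v =
    (2 * π * v.1.1 * cos (2 * π * p.1.1)) • dy - (2 * π * v.1.1 * sin (2 * π * p.1.1)) • dz := by
  have h0 : HasFDerivAt (fun p : P => 2 * π * p.1.1)
      ((2 * π) • ((ContinuousLinearMap.fst ℝ ℝ ℝ).comp (ContinuousLinearMap.fst ℝ (ℝ × ℝ) ℝ))) p :=
    (((ContinuousLinearMap.fst ℝ ℝ ℝ).comp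
      (ContinuousLinearMap.fst ℝ (ℝ × ℝ) ℝ)).hasFDerivAt (x := p)).const_mul (2 * π)
  have h1 := (h0.sin.smul_const dy).add (h0.cos.smul_const dz)
  have h2 : HasFDerivAt std _ p := h1
  rw [h2.fderiv]
  ext w <;> simp [dy, dz] <;> ring

theorem contact_std : Contact Z3 std := by
  refine ⟨?_, fun p => ?_, fun p s => ?_, fun g p v => ?_⟩
  · have h0 : ContDiff ℝ 2 fun p : P => 2 * π * p.1.1 :=
      contDiff_const.mul (contDiff_fst.comp contDiff_fst)
    exact ((contDiff_sin.comp h0).smul contDiff_const).add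
      ((contDiff_cos.comp h0).smul contDiff_const)
  · simp only [ext, std_fderiv]
    simp [std, e1, e2, e3, dy, dz]
    nlinarith [sin_sq_add_cos_sq (2 * π * p.1.1), pi_pos]
  · simp [std, e3]
  · have h1 : HasFDerivAt (fun q : P => g • q) (ContinuousLinearMap.id ℝ P) p := by
      simp only [smul_def']
      exact (hasFDerivAt_id p).const_add _
    rw [h1.fderiv, smul_def']
    have h2 : 2 * π * (vec g + p).1.1 = 2 * π * p.1.1 + g.toAdd.1.1 * (2 * π) := by
      simp [vec]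
      ring
    rw [std, h2, sin_add_int_mul_two_pi, cos_add_int_mul_two_pi]
    rfl

theorem reeb_std : Reeb std fun p => ((0, sin (2 * π * p.1.1)), cos (2 * π * p.1.1)) := by
  intro p
  constructor
  · simp [std, dy, dz]
    nlinarith [sin_sq_add_cos_sq (2 * π * p.1.1)]
  · intro v
    rw [ext, std_fderiv, std_fderiv]
    simp [dy, dz]
    ring

end MP4c1a42
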