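import Pool.Agent.Work.MP_4c1a42_gt.Local

set_option autoImplicit false

/-!
# The contact form is transported by the flow; variation of the period
-/

namespace MP4c1a42

open Set Metric Filter Topology Asymptotics
open scoped NNReal

/-- uniform differentiability -/
theorem unif_diff {R : P → P} (hR : ContDiff ℝ 1 R) {S : Set P} (hS : IsCompact S) {ε : ℝ}
    (hε : 0 < ε) : ∃ δ > 0, ∀ a ∈ S, ∀ b, dist b a < δ →
      ‖R b - R a - fderiv ℝ R a (b - a)‖ ≤ ε * ‖b - a‖ := by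
  have h1 := hS.uniformContinuousAt_of_continuousAt (fderiv ℝ R)
    (fun a _ => (hR.continuous_fderiv (by norm_num)).continuousAt) (Metric.dist_mem_uniformity hε)
  obtain ⟨δ, hδ, h2⟩ := Metric.mem_uniformity_dist.mp h1
  refine ⟨δ, hδ, fun a ha b hb => ?_⟩
  refine (convex_ball a δ).norm_image_sub_le_of_norm_hasFDerivWithin_le'
    (f' := fderiv ℝ R) (fun x _ => ((hR.differentiable (by norm_num)) x).hasFDerivAt.hasFDerivWithinAt)
    (fun x hx => ?_) (mem_ball_self hδ) hb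
  have h3 := h2 (a := a) (b := x) (by rw [dist_comm]; exact hx) ha
  have h4 : dist (fderiv ℝ R a) (fderiv ℝ R x) < ε := h3
  rw [dist_comm, dist_eq_norm] at h4
  exact h4.le

/-- the flow is jointly continuous -/
theorem IsFlow.joint {R : P → P} {Φ : ℝ → P → P} (hΦ : IsFlow R Φ) (hR : ContDiff ℝ 1 R) :
    Continuous fun x : ℝ × P => Φ x.1 x.2 := by
  refine continuous_iff_continuousAt.mpr fun ⟨t₀, p₀⟩ => ?_
  obtain ⟨r, hr, C, hC, h⟩ := hΦ.lip' hR p₀ (|t₀| + 1)
  have hc : ContinuousAt (fun t => Φ t p₀) t₀ := (hΦ.der t₀ p₀).continuousAt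
  rw [Metric.continuousAt_iff] at hc ⊢
  intro ε hε
  obtain ⟨η, hη, h1⟩ := hc (ε / 2) (by positivity)
  refine ⟨min (min η 1) (min r (ε / (2 * C))), by positivity, fun {x} hx => ?_⟩
  have hx1 : dist x.1 t₀ < min (min η 1) (min r (ε / (2 * C))) :=
    lt_of_le_of_lt (le_max_left _ _) hx
  have hx2 : dist x.2 p₀ < min (min η 1) (min r (ε / (2 * C))) :=
    lt_of_le_of_lt (le_max_right _ _) hx
  have a1 : dist x.1 t₀ < η := lt_of_lt_of_le hx1 ((min_le_left _ _).trans (min_le_left _ _))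
  have a2 : dist x.1 t₀ < 1 := lt_of_lt_of_le hx1 ((min_le_left _ _).trans (min_le_right _ _))
  have a3 : dist x.2 p₀ < r := lt_of_lt_of_le hx2 ((min_le_right _ _).trans (min_le_left _ _))
  have a4 : dist x.2 p₀ < ε / (2 * C) :=
    lt_of_lt_of_le hx2 ((min_le_right _ _).trans (min_le_right _ _))
  have ht : x.1 ∈ Icc (-(|t₀| + 1)) (|t₀| + 1) := by
    rw [Real.dist_eq, abs_lt] at a2
    constructor
    · linarith [neg_abs_le t₀]
    · linarith [le_abs_self t₀]
  have b1 := (h x.2 a3 p₀ (mem_ball_self hr) x.1 ht).1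
  have b2 := h1 a1
  rw [lt_div_iff₀ (by positivity)] at a4
  have b3 := dist_triangle (Φ x.1 x.2) (Φ x.1 p₀) (Φ t₀ p₀)
  change dist (Φ x.1 x.2) (Φ t₀ p₀) < ε
  linarith

/-- short times -/
theorem IsFlow.short {R : P → P} {Φ : ℝ → P → P} (hΦ : IsFlow R Φ) (hR : ContDiff ℝ 1 R)
    {ι : Type} {l : Filter ι} {w : ι → P} {σ : ι → ℝ} {z : P} (hw : Tendsto w l (𝓝 z))
    (hσ : Tendsto σ l (𝓝 0)) : (fun i => Φ (σ i) (w i) - w i - σ i • R z) =o[l] σ := by
  rw [isLittleO_iff]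
  intro ε hε
  have h1 : ContinuousAt (fun x : ℝ × P => ‖R (Φ x.1 x.2) - R z‖) (0, z) :=
    ((hR.continuous.comp (hΦ.joint hR)).sub continuous_const).norm.continuousAt
  have h2 : ∀ᶠ x : ℝ × P in 𝓝 (0, z), ‖R (Φ x.1 x.2) - R z‖ < ε := by
    refine h1.eventually_lt continuousAt_const ?_
    simp only [hΦ.zero, sub_self, norm_zero]
    exact hε
  obtain ⟨η, hη, h3⟩ := Metric.eventually_nhds_iff.mp h2
  have h4 : ∀ᶠ i in l, dist (w i) z < η := hw.eventually (Metric.ball_mem_nhds z hη)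
  have h5 : ∀ᶠ i in l, dist (σ i) 0 < η := hσ.eventually (Metric.ball_mem_nhds 0 hη)
  filter_upwards [h4, h5] with i hi1 hi2
  have h6 := (convex_Icc (-|σ i|) |σ i|).norm_image_sub_le_of_norm_hasDerivWithin_le
    (f := fun s => Φ s (w i) - s • R z) (f' := fun s => R (Φ s (w i)) - R z) (C := ε)
    (x := 0) (y := σ i)
    (fun s _ => by
      have := ((hΦ.der s (w i)).sub ((hasDerivAt_id s).smul_const (R z)))
      rw [one_smul] at this
      exact this.hasDerivWithinAt)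
    (fun s hs => by
      have : dist ((s, w i) : ℝ × P) (0, z) < η := by
        refine max_lt ?_ hi1
        change dist s 0 < η
        rw [Real.dist_eq, sub_zero] at hi2 ⊢
        exact lt_of_le_of_lt (abs_le.mpr hs) hi2
      exact (h3 this).le)
    ⟨by linarith [abs_nonneg (σ i)], abs_nonneg _⟩ ⟨neg_abs_le _, le_abs_self _⟩
  simp only [hΦ.zero, zero_smul, sub_zero] at h6
  refine le_trans (le_of_eq ?_) h6
  congr 1
  abel

section

variable {Γ : Type} [Group Γ] [MulAction Γ P] {α : P → P →L[ℝ] ℝ} {R : P → P} {Φ : ℝ → P → P}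

theorem transport (h : Contact Γ α) (hR : Reeb α R) (hΦ : IsFlow R Φ) (x : P) {T : ℝ}
    (hT : 0 ≤ T) :
    (fun y => α (Φ T x) (Φ T y - Φ T x) - α x (y - x)) =o[𝓝 x] fun y => y - x := by
  have hRs := h.reeb_smooth hR
  rw [isLittleO_iff]
  intro ε hε
  obtain ⟨r, hr, C, hC, hlip⟩ := hΦ.lip' hRs x T
  have hαc : Continuous fun t => α (Φ t x) := h.smooth.continuous.comp (hΦ.cont x)
  obtain ⟨A, hA⟩ := (isCompact_Icc (a := (0 : ℝ)) (b := T)).exists_bound_of_continuousOn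
    hαc.continuousOn
  have hA0 : 0 ≤ A := (norm_nonneg _).trans (hA 0 ⟨le_rfl, hT⟩)
  set κ : ℝ := (A + 1) * (C * (T + 1)) with hκ
  have hκ0 : 0 < κ := by positivity
  obtain ⟨δ, hδ, hunif⟩ := unif_diff hRs ((isCompact_Icc (a := (0 : ℝ)) (b := T)).image (hΦ.cont x))
    (div_pos hε hκ0)
  have hev : ∀ᶠ y in 𝓝 x, dist y x < min r (δ / C) := Metric.ball_mem_nhds x (by positivity)
  filter_upwards [hev] with y hy
  have hyr : y ∈ ball x r := lt_of_lt_of_le hy (min_le_left _ _)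
  have hyδ : C * dist y x < δ := by
    have := lt_of_lt_of_le hy (min_le_right _ _)
    rw [lt_div_iff₀ hC] at this
    linarith
  have hd : ∀ t, HasDerivAt (fun t => α (Φ t x) (Φ t y - Φ t x))
      (α (Φ t x) (R (Φ t y) - R (Φ t x) - fderiv ℝ R (Φ t x) (Φ t y - Φ t x))) t := by
    intro t
    have hdα : DifferentiableAt ℝ α (Φ t x) := (h.smooth.differentiable (by norm_num)) _
    have h1 : HasDerivAt (fun t => α (Φ t x)) (fderiv ℝ α (Φ t x) (R (Φ t x))) t :=
      hdα.hasFDerivAt.comp_hasDerivAt t (hΦ.der t x)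
    have h2 := h1.clm_apply ((hΦ.der t y).sub (hΦ.der t x))
    convert! h2 using 1
    have h3 := h.lie hR (Φ t x) (Φ t y - Φ t x)
    simp only [Pi.sub_apply]
    rw [map_sub, map_sub (α (Φ t x))]
    linarith
  have hb : ∀ t ∈ Icc 0 T,
      ‖α (Φ t x) (R (Φ t y) - R (Φ t x) - fderiv ℝ R (Φ t x) (Φ t y - Φ t x))‖ ≤
        A * (ε / κ * (C * ‖y - x‖)) := by
    intro t ht
    have h1 := (hlip y hyr x (mem_ball_self hr) t ⟨by linarith [ht.1], ht.2⟩).1
    have h2 := hunif (Φ t x) ⟨t, ht, rfl⟩ (Φ t y) (lt_of_le_of_lt h1 hyδ)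
    rw [dist_eq_norm, dist_eq_norm] at h1
    refine (ContinuousLinearMap.le_opNorm _ _).trans ?_
    refine mul_le_mul (hA t ht) (h2.trans ?_) (norm_nonneg _) hA0
    exact mul_le_mul_of_nonneg_left h1 (div_pos hε hκ0).le
  have hmv := (convex_Icc 0 T).norm_image_sub_le_of_norm_hasDerivWithin_le
    (fun t _ => (hd t).hasDerivWithinAt) hb ⟨le_rfl, hT⟩ ⟨hT, le_rfl⟩
  simp only [hΦ.zero, sub_zero] at hmv
  refine hmv.trans ?_
  rw [Real.norm_of_nonneg hT]
  have e1 : A * (ε / κ * (C * ‖y - x‖)) * T = ε * ‖y - x‖ * (A * (C * T) / κ) := by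
    field_simp
  rw [e1]
  have e2 : A * (C * T) / κ ≤ 1 := by
    rw [div_le_one hκ0, hκ]
    have : 0 ≤ A * C + C * T + C := by positivity
    nlinarith
  exact mul_le_of_le_one_right (by positivity) e2

/-- the period is stationary along a family of closed orbits with a constant vertical shift -/
theorem period (h : Contact Γ α) (hD : Deck Γ) (hR : Reeb α R) (hΦ : IsFlow R Φ) {q : P} {T δ : ℝ}
    {g : Γ} (hT : 0 ≤ T) (hq : Φ T q = g • q + δ • e3) {σ : P → ℝ}
    (hσ : σ =O[𝓝 q] fun q' => q' - q)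
    (hσ' : ∀ᶠ q' in 𝓝 q, Φ (T + σ q') q' = g • q' + δ • e3) :
    σ =o[𝓝 q] fun q' => q' - q := by
  have hRs := h.reeb_smooth hR
  set z := g • q + δ • e3 with hz
  have hto : Tendsto (fun q' : P => q' - q) (𝓝 q) (𝓝 0) := by
    have : Continuous fun q' : P => q' - q := continuous_id.sub continuous_const
    have h1 := this.tendsto q
    rwa [sub_self] at h1
  have hσ0 : Tendsto σ (𝓝 q) (𝓝 0) := hσ.trans_tendsto hto
  -- transport
  have h1 := transport h hR hΦ q hT
  rw [hq] at h1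
  -- short time
  have hw : Tendsto (fun q' => Φ T q') (𝓝 q) (𝓝 z) := by
    rw [← hq]
    exact (hΦ.contx hRs T).tendsto q
  have h2 := (hΦ.short hRs hw hσ0).trans_isBigO hσ
  have h3 : (fun q' => α z (Φ (σ q') (Φ T q') - Φ T q' - σ q' • R z)) =o[𝓝 q]
      fun q' => q' - q := ((α z).isBigO_comp _ _).trans_isLittleO h2
  -- deck transformation
  have h4 := (hD.diff g q).hasFDerivAt.isLittleO
  have h5 : (fun q' => α z (g • q' - g • q - fderiv ℝ (fun q : P => g • q) q (q' - q))) =o[𝓝 q]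
      fun q' => q' - q := ((α z).isBigO_comp _ _).trans_isLittleO h4
  have h6 : (fun q' => α z (g • q' - g • q - fderiv ℝ (fun q : P => g • q) q (q' - q)) -
      α z (Φ (σ q') (Φ T q') - Φ T q' - σ q' • R z) -
      (α z (Φ T q' - z) - α q (q' - q))) =o[𝓝 q] fun q' => q' - q := (h5.sub h3).sub h1
  refine h6.congr' ?_ EventuallyEq.rfl
  filter_upwards [hσ'] with q' hq'
  have e1 : Φ (σ q') (Φ T q') = g • q' + δ • e3 := by
    rw [← hΦ.add hRs, add_comm, hq']
  have e2 : α z (fderiv ℝ (fun q : P => g • q) q (q' - q)) = α q (q' - q) := by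
    rw [hz, h.vert, h.inv]
  rw [e1]
  simp only [map_sub, map_add, map_smul, smul_eq_mul, (hR z).1] at e2 ⊢
  rw [hz]
  simp only [map_add, map_smul, smul_eq_mul]
  rw [hz] at e2
  linarith

end

end MP4c1a42
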