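import Pool.Agent.Work.MP_4c1a42_gt.Final

set_option autoImplicit false

/-!
# The double covering on which the fibres are oriented
-/

namespace MP4c1a42

open Set

section

variable {Γ : Type} [Group Γ] [MulAction Γ P]

/-- the deck transformations preserving the direction of the fibres -/
def plus (Γ : Type) [Group Γ] [MulAction Γ P] : Subgroup Γ where
  carrier := {g | ∀ (p : P) (s : ℝ), g • (p + s • e3) = g • p + s • e3}
  mul_mem' := by
    intro a b ha hb p s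
    rw [mul_smul, hb, ha, mul_smul]
  one_mem' := by
    intro p s
    rw [one_smul, one_smul]
  inv_mem' := by
    intro a ha p s
    rw [inv_smul_eq_iff, ha, smul_inv_smul]

theorem mem_plus {g : Γ} : g ∈ plus Γ ↔ ∀ (p : P) (s : ℝ), g • (p + s • e3) = g • p + s • e3 :=
  Iff.rfl

theorem Seifert.neg_of_notMem (hS : Seifert Γ) {g : Γ} (hg : g ∉ plus Γ) (p : P) (s : ℝ) :
    g • (p + s • e3) = g • p - s • e3 := by
  rcases hS.vert g with h | h
  · exact absurd h hg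
  · exact h p s

/-- the product of two reversing elements preserves the fibre direction -/
theorem Seifert.mul_mem (hS : Seifert Γ) {a b : Γ} (ha : a ∉ plus Γ) (hb : b ∉ plus Γ) :
    a * b⁻¹ ∈ plus Γ := by
  intro p s
  have h1 : b⁻¹ • (p + s • e3) = b⁻¹ • p + (-s) • e3 := by
    rw [inv_smul_eq_iff, hS.neg_of_notMem hb, smul_inv_smul, neg_smul, sub_neg_eq_add]
  rw [mul_smul, h1, hS.neg_of_notMem ha, mul_smul, neg_smul, sub_neg_eq_add]

theorem Seifert.deck (hS : Seifert Γ) : Deck (plus Γ) := by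
  refine ⟨fun g => hS.smooth g, fun g p s => g.2 p s, ?_, ?_, ?_⟩
  · obtain ⟨τ, hτ⟩ := hS.unit
    refine ⟨⟨τ, fun p s => ?_⟩, hτ⟩
    rw [hτ, hτ]
    abel
  · intro K L hK hL
    refine Finite.of_finite_image (f := fun g : plus Γ => (g : Γ)) ?_
      Subtype.val_injective.injOn
    refine (hS.proper K L hK hL).subset ?_
    rintro _ ⟨g, ⟨p, hp, hg⟩, rfl⟩
    exact ⟨p, hp, hg⟩
  · obtain ⟨K, hK, hcc⟩ := hS.cocompact
    by_cases hall : ∀ g : Γ, g ∈ plus Γ
    · refine ⟨K, hK, fun p => ?_⟩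
      obtain ⟨g, hg⟩ := hcc p
      exact ⟨⟨g, hall g⟩, hg⟩
    · push Not at hall
      obtain ⟨b, hb⟩ := hall
      have hb' : b⁻¹ ∉ plus Γ := fun h => hb (by simpa using (plus Γ).inv_mem h)
      refine ⟨K ∪ (fun p : P => b • p) '' K, hK.union (hK.image (hS.smooth b).continuous),
        fun p => ?_⟩
      obtain ⟨g, hg⟩ := hcc p
      by_cases hgp : g ∈ plus Γ
      · exact ⟨⟨g, hgp⟩, Or.inl hg⟩
      · have h1 : b * g ∈ plus Γ := by
          have hg' : g⁻¹ ∉ plus Γ := fun h => hgp (by simpa using (plus Γ).inv_mem h)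
          have := hS.mul_mem hb hg'
          rwa [inv_inv] at this
        refine ⟨⟨b * g, h1⟩, Or.inr ⟨g • p, hg, ?_⟩⟩
        change b • g • p = (b * g) • p
        rw [mul_smul]

theorem Contact.plus {α : P → P →L[ℝ] ℝ} (h : Contact Γ α) :
    Contact (plus Γ) α :=
  ⟨h.smooth, h.contact, h.vert, fun g p v => h.inv g p v⟩

/-- saturation -/
def sat (Γ : Type) [Group Γ] [MulAction Γ P] (O : Set P) : Set P :=
  {q | ∃ g : Γ, ∃ p ∈ O, q = g • p}

theorem final {α : P → P →L[ℝ] ℝ} {R : P → P} (hS : Seifert Γ) (h : Contact Γ α)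
    (hR : Reeb α R) : ∃ T, (orbits Γ R T).Infinite := by
  have hRs := h.reeb_smooth hR
  have hD := hS.deck
  obtain ⟨T, hT⟩ := main h.plus hD hR
  obtain ⟨Φ, hΦ⟩ := exists_flow h.plus hD hR
  refine ⟨T, fun hfin => hT ?_⟩
  -- orbits on the double covering
  have hform : ∀ O ∈ orbits (MP4c1a42.plus Γ) R T, ∃ p : P, O = orb (MP4c1a42.plus Γ) Φ p := by
    rintro O ⟨γ, h1, -, rfl⟩
    refine ⟨γ 0, ?_⟩
    ext q
    constructor
    · rintro ⟨g, t, rfl⟩
      exact ⟨g, t, by rw [hΦ.eq hRs h1]⟩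
    · rintro ⟨g, t, rfl⟩
      exact ⟨g, t, by rw [hΦ.eq hRs h1 t]⟩
  have hsat : ∀ p : P, sat Γ (orb (MP4c1a42.plus Γ) Φ p) = {q | ∃ (g : Γ) (t : ℝ), q = g • Φ t p} := by
    intro p
    ext q
    constructor
    · rintro ⟨g, _, ⟨g', t, rfl⟩, rfl⟩
      refine ⟨g * g', t, ?_⟩
      rw [mul_smul]
      rfl
    · rintro ⟨g, t, rfl⟩
      exact ⟨g, Φ t p, ⟨1, t, by rw [one_smul]⟩, rfl⟩
  refine Finite.of_finite_fibers (sat Γ) ?_ ?_
  · refine hfin.subset ?_
    rintro _ ⟨O, hO, rfl⟩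
    obtain ⟨γ, h1, ⟨t, ht, htT, g, hg⟩, rfl⟩ := hO
    refine ⟨γ, h1, ⟨t, ht, htT, g, hg⟩, ?_⟩
    ext q
    constructor
    · rintro ⟨g, _, ⟨g', t, rfl⟩, rfl⟩
      refine ⟨g * g', t, ?_⟩
      rw [mul_smul]
      rfl
    · rintro ⟨g, t, rfl⟩
      exact ⟨g, γ t, ⟨1, t, by rw [one_smul]⟩, rfl⟩
  · rintro _ ⟨O, hO, rfl⟩
    obtain ⟨p, rfl⟩ := hform O hO
    -- the flow commutes with all deck transformations
    have hdeck : ∀ (g : Γ) (t : ℝ) (x : P), Φ t (g • x) = g • Φ t x := by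
      intro g t x
      have h1 : ∀ t, HasDerivAt (fun t => g • Φ t x) (R (g • Φ t x)) t := fun t =>
        h.sol_inv hS.smooth hR g (hΦ.der t x)
      have := hΦ.eq hRs h1 t
      rw [hΦ.zero] at this
      exact this.symm
    have horb : ∀ (g : Γ) (t : ℝ) (b : Γ), g * b⁻¹ ∈ MP4c1a42.plus Γ →
        orb (MP4c1a42.plus Γ) Φ (g • Φ t p) = orb (MP4c1a42.plus Γ) Φ (b • p) := by
      intro g t b hgb
      ext q
      constructor
      · rintro ⟨g', s, rfl⟩
        refine ⟨g' * ⟨g * b⁻¹, hgb⟩, s + t, ?_⟩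
        rw [hdeck, hdeck, hΦ.add hRs, mul_smul]
        change g' • g • Φ s (Φ t p) = g' • (g * b⁻¹) • b • Φ s (Φ t p)
        rw [mul_smul, inv_smul_smul]
      · rintro ⟨g', s, rfl⟩
        refine ⟨g' * ⟨g * b⁻¹, hgb⟩⁻¹, s - t, ?_⟩
        rw [hdeck, hdeck, ← hΦ.add hRs, sub_add_cancel, mul_smul]
        change g' • b • Φ s p = g' • (g * b⁻¹)⁻¹ • g • Φ s p
        rw [← mul_smul (g * b⁻¹)⁻¹, mul_inv_rev, inv_inv, mul_assoc, inv_mul_cancel, mul_one]
    have hin : ∀ O' ∈ orbits (MP4c1a42.plus Γ) R T ∩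
        sat Γ ⁻¹' {sat Γ (orb (MP4c1a42.plus Γ) Φ p)}, ∃ (g : Γ) (t : ℝ),
          O' = orb (MP4c1a42.plus Γ) Φ (g • Φ t p) := by
      rintro O' ⟨hO', hsO⟩
      obtain ⟨p', rfl⟩ := hform O' hO'
      have h1 : p' ∈ sat Γ (orb (MP4c1a42.plus Γ) Φ p') :=
        ⟨1, p', self_orb hΦ p', by rw [one_smul]⟩
      have h2 : sat Γ (orb (MP4c1a42.plus Γ) Φ p') = sat Γ (orb (MP4c1a42.plus Γ) Φ p) := hsO
      rw [h2, hsat] at h1
      obtain ⟨g, t, rfl⟩ := h1
      exact ⟨g, t, rfl⟩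
    by_cases hall : ∀ g : Γ, g ∈ MP4c1a42.plus Γ
    · refine (finite_singleton (orb (MP4c1a42.plus Γ) Φ ((1 : Γ) • p))).subset ?_
      intro O' hO'
      obtain ⟨g, t, rfl⟩ := hin O' hO'
      exact horb g t 1 (hall _)
    · push Not at hall
      obtain ⟨b, hb⟩ := hall
      refine ((finite_singleton (orb (MP4c1a42.plus Γ) Φ ((1 : Γ) • p))).insert
        (orb (MP4c1a42.plus Γ) Φ (b • p))).subset ?_
      intro O' hO'
      obtain ⟨g, t, rfl⟩ := hin O' hO'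
      by_cases hg : g ∈ MP4c1a42.plus Γ
      · exact Or.inr (horb g t 1 (by simpa using hg))
      · exact Or.inl (horb g t b (hS.mul_mem hg hb))

end

end MP4c1a42
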